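import Pool.Agent.H52.SIC.Thin
import Pool.Graph.R_seed8.Y387.AP.Main

/-!
# `d²` unit vectors which form an exactly tight and nearly equiangular frame
-/

set_option autoImplicit false

open Finset InnerProductSpace

namespace Pool.Agent.H52.SIC

set_option linter.unusedSectionVars false

/-- polarisation of tightness -/
lemma polar {V : Type*} [NormedAddCommGroup V] [InnerProductSpace ℂ V] [FiniteDimensional ℂ V]
    {ι : Type*} [Fintype ι] (x : ι → V) (a : ℝ)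
    (h : ∀ u, ∑ i, ‖⟪x i, u⟫_ℂ‖ ^ 2 = a * ‖u‖ ^ 2) (u w : V) :
    ∑ g, ⟪u, x g⟫_ℂ * ⟪x g, w⟫_ℂ = (a : ℂ) * ⟪u, w⟫_ℂ := by
  have : CompleteSpace V := FiniteDimensional.complete ℂ V
  have h1 : ((fr x 1 - (a : ℂ) • (1 : V →L[ℂ] V) : V →L[ℂ] V) : V →ₗ[ℂ] V) = 0 := by
    rw [← inner_map_self_eq_zero]
    intro v
    show ⟪(fr x 1 - (a : ℂ) • (1 : V →L[ℂ] V)) v, v⟫_ℂ = 0
    rw [_root_.sub_apply, _root_.smul_apply, one_apply_eq_self, inner_sub_left, inner_smul_left,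
      inner_fr, Complex.conj_ofReal]
    simp only [Pi.one_apply, Complex.ofReal_one, one_mul]
    rw [sum_self, h v, inner_self_ofReal]
    push_cast
    ring
  have h2 : (fr x 1 - (a : ℂ) • (1 : V →L[ℂ] V)) u = 0 := by
    have := congrArg (fun T : V →ₗ[ℂ] V => T u) h1
    exact this
  have h3 : ⟪(fr x 1 - (a : ℂ) • (1 : V →L[ℂ] V)) u, w⟫_ℂ = 0 := by rw [h2, inner_zero_left]
  rw [_root_.sub_apply, _root_.smul_apply, one_apply_eq_self, inner_sub_left, inner_smul_left,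
      inner_fr, Complex.conj_ofReal] at h3
  simp only [Pi.one_apply, Complex.ofReal_one, one_mul] at h3
  exact sub_eq_zero.mp h3

set_option maxHeartbeats 4000000 in
/-- the case of large dimension -/
lemma large : ∃ (c C : ℝ) (d₀ : ℕ), 0 < c ∧ c ≤ 1 ∧ 0 < C ∧ 1 ≤ d₀ ∧ ∀ d : ℕ, d₀ ≤ d →
    ∃ x : Fin (d ^ 2) → EuclideanSpace ℂ (Fin d),
      (∀ i, ‖x i‖ = 1) ∧
      (∀ u : EuclideanSpace ℂ (Fin d), ∑ i, ‖⟪x i, u⟫_ℂ‖ ^ 2 = d * ‖u‖ ^ 2) ∧
      (∀ i j, i ≠ j → |((d : ℝ) + 1) * ‖⟪x i, x j⟫_ℂ‖ ^ 2 - 1| ≤ C * (d : ℝ) ^ (-c)) := by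
  classical
  obtain ⟨c', C, hc', hC, hmain⟩ := Pool.Agent.Y387.AP.main
  -- the exponent
  set c := min c' 1 with hc
  have hc0 : 0 < c := lt_min hc' one_pos
  have hc1 : c ≤ 1 := min_le_right _ _
  -- constants
  set A0 : ℝ := Real.log (6 * (1 + C) ^ 2) with hA0
  have hA00 : 0 ≤ A0 := Real.log_nonneg (by nlinarith)
  set A1 : ℝ := A0 + 16 / c with hA1
  have hA10 : 0 < A1 := by positivity
  set A2 : ℝ := 8 * (1 + C) * √(C * A1) with hA2
  have hA20 : 0 ≤ A2 := by positivity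
  set A3 : ℝ := A2 + 2 * C with hA3
  have hA30 : 0 < A3 := by positivity
  set A4 : ℝ := A2 + 2 * √(1 + C) + 2 with hA4
  have hA40 : 0 < A4 := by positivity
  -- the size of `f = d ^ (-c/4)`
  have hlim : ∀ a : ℝ, 0 < a → ∃ n₀ : ℕ, ∀ d : ℕ, n₀ ≤ d → (d : ℝ) ^ (-(c / 4)) ≤ a := by
    intro a ha
    have h1 : Filter.Tendsto (fun d : ℕ => (d : ℝ) ^ (-(c / 4))) Filter.atTop (nhds 0) :=
      (tendsto_rpow_neg_atTop (by positivity : 0 < c / 4)).comp tendsto_natCast_atTop_atTop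
    have h2 := h1.eventually (ge_mem_nhds ha)
    exact Filter.eventually_atTop.mp h2
  obtain ⟨n₁, hn₁⟩ := hlim (1 / A3) (by positivity)
  obtain ⟨n₂, hn₂⟩ := hlim (1 / (200 * A4)) (by positivity)
  obtain ⟨n₃, hn₃⟩ := hlim (1 / (100 * C)) (by positivity)
  refine ⟨c / 4, C + 2 * 10 ^ 8 * A3, max 5000 (max n₁ (max n₂ n₃)), by positivity, by linarith,
    by positivity, le_trans (by norm_num) (le_max_left _ _), fun d hd => ?_⟩
  have hd5 : 5000 ≤ d := (le_max_left _ _).trans hd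
  have hd' := (le_max_right _ _).trans hd
  have f1 := hn₁ d ((le_max_left _ _).trans hd')
  have f2 := hn₂ d ((le_max_left _ _).trans ((le_max_right _ _).trans hd'))
  have f3 := hn₃ d ((le_max_right _ _).trans ((le_max_right _ _).trans hd'))
  have hdR : (5000 : ℝ) ≤ d := by exact_mod_cast hd5
  have hd0 : (0 : ℝ) < d := by linarith
  have hd1 : (1 : ℝ) ≤ d := by linarith
  set f : ℝ := (d : ℝ) ^ (-(c / 4)) with hf
  have hf0 : 0 < f := Real.rpow_pos_of_pos hd0 _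
  have hf1 : f ≤ 1 := Real.rpow_le_one_of_one_le_of_nonpos hd1 (by linarith)
  set e : ℝ := (d : ℝ) ^ (-c) with he
  have hef : e = f ^ 4 := by
    rw [he, hf, ← Real.rpow_natCast, ← Real.rpow_mul hd0.le]
    congr 1
    push_cast
    ring
  have he0 : 0 < e := Real.rpow_pos_of_pos hd0 _
  have hef1 : e ≤ f := by
    rw [hef]
    calc f ^ 4 = f * f ^ 3 := by ring
      _ ≤ f * 1 := by gcongr; exact pow_le_one₀ hf0.le hf1
      _ = f := mul_one _
  have he1 : e ≤ 1 := hef1.trans hf1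
  have hee : (d : ℝ) ^ (-c') ≤ e :=
    Real.rpow_le_rpow_of_exponent_le hd1 (neg_le_neg (min_le_left _ _))
  obtain ⟨N, v, hN, hv, hang, htight, S₀, hS₀, -⟩ := hmain d (by omega)
  have hNd : d ^ 2 ≤ N := by
    rw [← hS₀]
    calc S₀.card ≤ (univ : Finset (Fin N)).card := card_le_univ _
      _ = N := by simp
  obtain ⟨m, hm⟩ : ∃ m, N = d ^ 2 + m := ⟨N - d ^ 2, by omega⟩
  have hmR : (N : ℝ) = (d : ℝ) ^ 2 + m := by rw [hm]; push_cast; ring
  have hCe : C * (d : ℝ) ^ (-c') ≤ C * e := by gcongr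
  have hm1 : (m : ℝ) ≤ C * e * (d : ℝ) ^ 2 := by
    have h1 : (1 + C * (d : ℝ) ^ (-c')) * (d : ℝ) ^ 2 ≤ (1 + C * e) * (d : ℝ) ^ 2 := by gcongr
    have h2 := hN.trans h1
    rw [hmR] at h2
    linarith
  have hang' : ∀ i j, i ≠ j → |((d : ℝ) + 1) * ‖⟪v i, v j⟫_ℂ‖ ^ 2 - 1| ≤ C * e :=
    fun i j hij => (hang i j hij).trans hCe
  set M : ℝ := (1 + C) / d with hM
  have hM0 : 0 < M := by positivity
  have hMv : ∀ i j, i ≠ j → ‖⟪v i, v j⟫_ℂ‖ ^ 2 ≤ M := by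
    intro i j hij
    have h1 := (abs_le.mp (hang' i j hij)).2
    have h2 : C * e ≤ C * 1 := by gcongr
    rw [hM, le_div_iff₀ hd0]
    nlinarith [sq_nonneg ‖⟪v i, v j⟫_ℂ‖]
  -- the logarithm
  set L : ℝ := Real.log (2 * (2 * (N : ℝ) ^ 2 + 1)) with hL
  have hN1 : (1 : ℝ) ≤ N := by
    rw [hmR]
    have : (0 : ℝ) ≤ m := Nat.cast_nonneg _
    nlinarith
  have hNC : (N : ℝ) ≤ (1 + C) * (d : ℝ) ^ 2 := by
    rw [hmR]
    have : C * e * (d : ℝ) ^ 2 ≤ C * 1 * (d : ℝ) ^ 2 := by gcongr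
    linarith
  have hL0 : 0 ≤ L := Real.log_nonneg (by nlinarith)
  have hLb : L ≤ A0 + 4 * Real.log d := by
    have h1 : 2 * (2 * (N : ℝ) ^ 2 + 1) ≤ (6 * (1 + C) ^ 2) * (d : ℝ) ^ 4 := by
      have h2 : (N : ℝ) ^ 2 ≤ ((1 + C) * (d : ℝ) ^ 2) ^ 2 :=
        pow_le_pow_left₀ (by linarith) hNC 2
      have h3 : (1 : ℝ) ≤ (N : ℝ) ^ 2 := one_le_pow₀ hN1
      have h4 : (6 * (1 + C) ^ 2) * (d : ℝ) ^ 4 = 6 * ((1 + C) * (d : ℝ) ^ 2) ^ 2 := by ring
      rw [h4]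
      linarith
    calc L ≤ Real.log ((6 * (1 + C) ^ 2) * (d : ℝ) ^ 4) := Real.log_le_log (by positivity) h1
      _ = A0 + 4 * Real.log d := by
          rw [Real.log_mul (by positivity) (by positivity), Real.log_pow]
          push_cast
          rfl
  have hlog : Real.log d ≤ 4 / c * (1 / f) ^ 1 * 1 := by
    have h1 := Real.log_le_rpow_div (x := (d : ℝ)) hd0.le (ε := c / 4) (by positivity)
    have h2 : (d : ℝ) ^ (c / 4) = 1 / f := by
      rw [hf, Real.rpow_neg hd0.le, one_div, inv_inv]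
    rw [h2] at h1
    refine h1.trans (le_of_eq ?_)
    field_simp
  have heL : e * L ≤ A1 * f ^ 2 := by
    have h1 : e * L ≤ e * (A0 + 4 * (4 / c * (1 / f))) := by
      gcongr
      refine hLb.trans ?_
      have : Real.log d ≤ 4 / c * (1 / f) := by simpa using hlog
      linarith
    refine h1.trans ?_
    rw [hef]
    have h2 : f ^ 4 * (A0 + 4 * (4 / c * (1 / f))) = (A0 * f ^ 2) * f ^ 2 + (16 / c * f) * f ^ 2 := by
      field_simp
      ring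
    rw [h2, hA1]
    have h3 : A0 * f ^ 2 ≤ A0 := mul_le_of_le_one_right hA00 (pow_le_one₀ hf0.le hf1)
    have h4 : 16 / c * f ≤ 16 / c := mul_le_of_le_one_right (by positivity) hf1
    nlinarith [sq_nonneg f]
  have hmL : √((m : ℝ) * L) ≤ √(C * A1) * (f * d) := by
    have h1 : (m : ℝ) * L ≤ (C * A1) * (f * d) ^ 2 := by
      calc (m : ℝ) * L ≤ (C * e * (d : ℝ) ^ 2) * L := by gcongr
        _ = C * (d : ℝ) ^ 2 * (e * L) := by ring
        _ ≤ C * (d : ℝ) ^ 2 * (A1 * f ^ 2) := by gcongr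
        _ = _ := by ring
    calc √((m : ℝ) * L) ≤ √((C * A1) * (f * d) ^ 2) := Real.sqrt_le_sqrt h1
      _ = _ := by rw [Real.sqrt_mul (by positivity), Real.sqrt_sq (by positivity)]
  have herr : 8 * M * √((m : ℝ) * L) ≤ A2 * f := by
    calc 8 * M * √((m : ℝ) * L) ≤ 8 * M * (√(C * A1) * (f * d)) := by gcongr
      _ = A2 * f := by rw [hM, hA2]; field_simp
  have hmN : 2 * (m : ℝ) / N ≤ 2 * C * f := by
    rw [div_le_iff₀ (by linarith)]
    calc 2 * (m : ℝ) ≤ 2 * (C * e * (d : ℝ) ^ 2) := by gcongr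
      _ ≤ 2 * (C * f * N) := by
          gcongr
          rw [hmR]
          have : (0 : ℝ) ≤ m := Nat.cast_nonneg _
          linarith
      _ = _ := by ring
  have htight' : ∀ u w, ∑ g, ⟪u, v g⟫_ℂ * ⟪v g, w⟫_ℂ = ((Fintype.card (Fin N) / (d : ℝ) : ℝ) : ℂ) * ⟪u, w⟫_ℂ := by
    intro u w
    rw [Fintype.card_fin]
    exact polar v _ htight u w
  obtain ⟨S, hS1, hS2, hS3⟩ := thin v hd0 hv htight' hM0 hMv m
    (by rw [Fintype.card_fin]; exact hmR) L (by rw [Fintype.card_fin])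
  have hSc : Fintype.card S = d ^ 2 := by
    rw [Fintype.card_coe]
    rw [Fintype.card_fin] at hS1
    omega
  have hsf : 1 / √(d : ℝ) ≤ f := by
    have h1 : √(d : ℝ) = (d : ℝ) ^ (1 / 2 : ℝ) := Real.sqrt_eq_rpow _
    rw [h1, one_div, ← Real.rpow_neg hd0.le]
    exact Real.rpow_le_rpow_of_exponent_le hd1 (by linarith)
  set β : ℝ := A3 * f / d with hβ
  have hβ0 : 0 ≤ β := by positivity
  have hdβ : (d : ℝ) * β = A3 * f := by rw [hβ]; field_simp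
  have hdβ1 : (d : ℝ) * β ≤ 1 := by
    rw [hdβ]
    calc A3 * f ≤ A3 * (1 / A3) := by gcongr
      _ = 1 := by field_simp
  set κ : ℝ := A4 * f with hκ
  have hκ1 : κ ≤ 1 / 200 := by
    calc A4 * f ≤ A4 * (1 / (200 * A4)) := by gcongr
      _ = 1 / 200 := by field_simp
  have hε1 : C * f ≤ 1 / 100 := by
    calc C * f ≤ C * (1 / (100 * C)) := by gcongr
      _ = 1 / 100 := by field_simp
  -- the subfamily
  let x : S → EuclideanSpace ℂ (Fin d) := fun i => v i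
  have hnear : Near (d : ℝ) κ x := by
    intro u w
    have h1 := hS3 u w
    rw [Fintype.card_fin] at h1
    have h2 : ∑ k : S, ⟪u, x k⟫_ℂ * ⟪x k, w⟫_ℂ = ∑ g ∈ S, ⟪u, v g⟫_ℂ * ⟪v g, w⟫_ℂ :=
      Finset.sum_coe_sort S (fun g => ⟪u, v g⟫_ℂ * ⟪v g, w⟫_ℂ)
    rw [h2]
    refine h1.trans ?_
    have h3 : (8 * M * √((m : ℝ) * L) + 2 * √M) * d + 2 * d / N ≤ κ * d := by
      have g1 : √M ≤ √(1 + C) * f := by
        rw [hM, Real.sqrt_div (by positivity), div_eq_mul_one_div]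
        gcongr
      have g2 : 2 * (d : ℝ) / N ≤ 2 * f * d := by
        have : 1 / (N : ℝ) ≤ f := by
          calc 1 / (N : ℝ) ≤ 1 / d := by
                apply one_div_le_one_div_of_le hd0
                rw [hmR]
                have : (0 : ℝ) ≤ m := Nat.cast_nonneg _
                nlinarith
            _ ≤ 1 / √d := by
                apply one_div_le_one_div_of_le (Real.sqrt_pos.mpr hd0)
                rw [Real.sqrt_le_left hd0.le]
                nlinarith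
            _ ≤ f := hsf
        calc 2 * (d : ℝ) / N = 2 * (1 / N) * d := by ring
          _ ≤ 2 * f * d := by gcongr
      calc (8 * M * √((m : ℝ) * L) + 2 * √M) * d + 2 * d / N ≤
          (A2 * f + 2 * (√(1 + C) * f)) * d + 2 * f * d := by gcongr
        _ = κ * d := by rw [hκ, hA4]; ring
    gcongr
  have hent : ∀ i j : S, ‖∑ k, ⟪x i, x k⟫_ℂ * ⟪x k, x j⟫_ℂ - (d : ℂ) * ⟪x i, x j⟫_ℂ‖ ≤ d * β := by
    intro i j
    have h1 := hS2 i i.2 j j.2
    rw [Fintype.card_fin] at h1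
    have h2 : ∑ k : S, ⟪x i, x k⟫_ℂ * ⟪x k, x j⟫_ℂ = ∑ g ∈ S, ⟪v i, v g⟫_ℂ * ⟪v g, v j⟫_ℂ :=
      Finset.sum_coe_sort S (fun g => ⟪v i, v g⟫_ℂ * ⟪v g, v j⟫_ℂ)
    rw [h2, hdβ]
    refine h1.trans ?_
    calc 8 * M * √((m : ℝ) * L) + 2 * m / N ≤ A2 * f + 2 * C * f := add_le_add herr hmN
      _ = A3 * f := by rw [hA3]; ring
  have hCf : C * e ≤ C * f := by gcongr
  obtain ⟨y, hy1, hy2, hy3⟩ := correct (V := EuclideanSpace ℂ (Fin d)) (x := x) (ε := C * f)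
    (κ := κ) (β := β) hd5 (by simp) hSc (fun i => hv i)
    (by positivity) hε1 (by positivity) hκ1
    (fun i j hij => (hang' i j (fun h => hij (Subtype.ext h))).trans hCf)
    hnear hent hβ0 hdβ1
  -- reindexing
  let eq : Fin (d ^ 2) ≃ S := Fintype.equivOfCardEq (by rw [Fintype.card_fin, hSc])
  refine ⟨fun i => y (eq i), fun i => hy1 _, fun u => ?_, fun i j hij => ?_⟩
  · rw [← hy2 u]
    exact Fintype.sum_equiv eq _ _ fun _ => rfl
  · have hij' : eq i ≠ eq j := fun h => hij (eq.injective h)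
    have h1 := hy3 _ _ hij'
    have h2 := (hang' (eq i) (eq j) (fun h => hij' (Subtype.ext h))).trans hCf
    set a := ‖⟪y (eq i), y (eq j)⟫_ℂ‖ ^ 2 with ha
    set b := ‖⟪v (eq i), v (eq j)⟫_ℂ‖ ^ 2 with hb
    have h3 : |a - b| ≤ 10 ^ 8 * β / √d := h1
    have hsd : 0 < √(d : ℝ) := Real.sqrt_pos.mpr hd0
    have hsd1 : 1 ≤ √(d : ℝ) := Real.one_le_sqrt.mpr hd1
    have h4 : ((d : ℝ) + 1) * |a - b| ≤ 2 * 10 ^ 8 * A3 * f := by
      calc ((d : ℝ) + 1) * |a - b| ≤ (2 * d) * (10 ^ 8 * β / √d) := by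
            gcongr
            linarith
        _ = 2 * 10 ^ 8 * (d * β) / √d := by ring
        _ = 2 * 10 ^ 8 * (A3 * f) / √d := by rw [hdβ]
        _ ≤ 2 * 10 ^ 8 * (A3 * f) / 1 := by gcongr
        _ = _ := by ring
    have h5 : ((d : ℝ) + 1) * a - 1 = ((d + 1) * b - 1) + (d + 1) * (a - b) := by ring
    calc |((d : ℝ) + 1) * a - 1| ≤ |((d : ℝ) + 1) * b - 1| + |((d : ℝ) + 1) * (a - b)| := by
          rw [h5]; exact abs_add_le _ _
      _ ≤ C * f + 2 * 10 ^ 8 * A3 * f := by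
          apply add_le_add h2
          rw [abs_mul, abs_of_pos (by positivity : (0 : ℝ) < (d : ℝ) + 1)]
          exact h4
      _ = _ := by ring

theorem main : ∃ c C : ℝ, 0 < c ∧ 0 < C ∧ ∀ d : ℕ, 1 ≤ d →
    ∃ x : Fin (d ^ 2) → EuclideanSpace ℂ (Fin d),
      (∀ i, ‖x i‖ = 1) ∧
      (∀ u : EuclideanSpace ℂ (Fin d), ∑ i, ‖⟪x i, u⟫_ℂ‖ ^ 2 = d * ‖u‖ ^ 2) ∧
      (∀ i j, i ≠ j → |((d : ℝ) + 1) * ‖⟪x i, x j⟫_ℂ‖ ^ 2 - 1| ≤ C * (d : ℝ) ^ (-c)) := by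
  obtain ⟨c, C, d₀, hc, hc1, hC, hd₀, h⟩ := large
  refine ⟨c, max C ((d₀ : ℝ) ^ 2), hc, lt_max_of_lt_left hC, fun d hd => ?_⟩
  have hdR : (1 : ℝ) ≤ d := by exact_mod_cast hd
  have hd0 : (0 : ℝ) < d := by linarith
  have hpos : 0 < (d : ℝ) ^ (-c) := Real.rpow_pos_of_pos hd0 _
  rcases le_or_gt d₀ d with hle | hlt
  · obtain ⟨x, h1, h2, h3⟩ := h d hle
    exact ⟨x, h1, h2, fun i j hij => (h3 i j hij).trans
      (mul_le_mul_of_nonneg_right (le_max_left _ _) hpos.le)⟩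
  · obtain ⟨x, h1, h2, h3⟩ := Pool.Agent.Y387.AP.small d hd
    refine ⟨x, h1, h3, fun i j hij => (h2 i j hij).trans ?_⟩
    have hdd : (d : ℝ) ≤ d₀ := by exact_mod_cast hlt.le
    have e1 : (d : ℝ) ^ 2 * (d : ℝ) ^ (-c) ≤ max C ((d₀ : ℝ) ^ 2) * (d : ℝ) ^ (-c) := by
      apply mul_le_mul_of_nonneg_right _ hpos.le
      refine le_trans ?_ (le_max_right _ _)
      exact pow_le_pow_left₀ hd0.le hdd 2
    refine le_trans ?_ e1
    have e2 : (d : ℝ) ^ (-(1 : ℝ)) ≤ (d : ℝ) ^ (-c) :=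
      Real.rpow_le_rpow_of_exponent_le hdR (by linarith)
    calc (d : ℝ) = (d : ℝ) ^ 2 * (d : ℝ) ^ (-(1 : ℝ)) := by
          rw [Real.rpow_neg_one]
          field_simp
      _ ≤ _ := mul_le_mul_of_nonneg_left e2 (by positivity)

end Pool.Agent.H52.SIC
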