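import Mathlib

/-!
# A bound for the number of nearly equiangular vectors
-/

set_option autoImplicit false

open Finset

namespace Pool.Agent.H52.SIC

/-- the Welch inequality for arbitrary families -/
lemma welch {κ : Type*} [Fintype κ] {N : ℕ} (f : Fin N → κ → ℂ) :
    (∑ i, ∑ a, ‖f i a‖ ^ 2) ^ 2 ≤ (Fintype.card κ : ℝ) *
      ∑ i, ∑ j, ‖∑ a, (starRingEnd ℂ) (f i a) * f j a‖ ^ 2 := by
  classical
  set T : κ → κ → ℂ := fun a b => ∑ i, f i a * (starRingEnd ℂ) (f i b) with hT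
  have h1 : ∀ a, T a a = ((∑ i, ‖f i a‖ ^ 2 : ℝ) : ℂ) := by
    intro a
    simp only [hT]
    push_cast
    refine sum_congr rfl fun i _ => ?_
    exact Complex.mul_conj' _
  have h2 : (∑ i, ∑ a, ‖f i a‖ ^ 2) ^ 2 ≤ (Fintype.card κ : ℝ) * ∑ a, ‖T a a‖ ^ 2 := by
    rw [sum_comm]
    have h3 := sq_sum_le_card_mul_sum_sq (s := (univ : Finset κ)) (f := fun a => ∑ i, ‖f i a‖ ^ 2)
    rw [card_univ] at h3
    refine h3.trans (le_of_eq ?_)
    congr 1
    refine sum_congr rfl fun a _ => ?_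
    rw [h1, Complex.norm_real, Real.norm_eq_abs, sq_abs]
  have h4 : ∑ a, ‖T a a‖ ^ 2 ≤ ∑ a, ∑ b, ‖T a b‖ ^ 2 :=
    sum_le_sum fun a _ => single_le_sum (f := fun b => ‖T a b‖ ^ 2)
      (fun b _ => sq_nonneg _) (mem_univ a)
  have h5 : ∑ a, ∑ b, ‖T a b‖ ^ 2 = ∑ i, ∑ j, ‖∑ a, (starRingEnd ℂ) (f i a) * f j a‖ ^ 2 := by
    have e1 : ((∑ a, ∑ b, ‖T a b‖ ^ 2 : ℝ) : ℂ) =
        ((∑ i, ∑ j, ‖∑ a, (starRingEnd ℂ) (f i a) * f j a‖ ^ 2 : ℝ) : ℂ) := by
      push_cast
      have e2 : ∀ a b, ((‖T a b‖ : ℝ) : ℂ) ^ 2 = ∑ i, ∑ j,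
          (f i a * (starRingEnd ℂ) (f i b)) * ((starRingEnd ℂ) (f j a) * f j b) := by
        intro a b
        rw [← Complex.mul_conj']
        simp only [hT]
        rw [map_sum, sum_mul_sum]
        refine sum_congr rfl fun i _ => sum_congr rfl fun j _ => ?_
        rw [map_mul, Complex.conj_conj]
      have e3 : ∀ i j, ((‖∑ a, (starRingEnd ℂ) (f i a) * f j a‖ : ℝ) : ℂ) ^ 2 = ∑ a, ∑ b,
          (f i a * (starRingEnd ℂ) (f i b)) * ((starRingEnd ℂ) (f j a) * f j b) := by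
        intro i j
        rw [← Complex.conj_mul']
        rw [map_sum, sum_mul_sum]
        refine sum_congr rfl fun a _ => sum_congr rfl fun b _ => ?_
        rw [map_mul, Complex.conj_conj]
        ring
      simp only [e2, e3]
      rw [sum_congr rfl fun a _ => sum_comm]
      rw [sum_comm]
      refine sum_congr rfl fun i _ => ?_
      rw [sum_congr rfl fun a _ => sum_comm]
      rw [sum_comm]
    exact_mod_cast e1
  rw [← h5]
  exact h2.trans (by gcongr)

/-- **The bound.** -/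
theorem gerzon (d N : ℕ) (x : Fin N → EuclideanSpace ℂ (Fin d)) (ε : ℝ) (hd : 1 ≤ d) (hN : 1 ≤ N)
    (hx : ∀ i, ‖x i‖ = 1)
    (h : ∀ i j, i ≠ j → |((d : ℝ) + 1) * ‖inner ℂ (x i) (x j)‖ ^ 2 - 1| ≤ ε) :
    (N : ℝ) * (1 - ε ^ 2) ≤ (d : ℝ) ^ 2 - ε ^ 2 := by
  classical
  have hd0 : (0 : ℝ) < d := by exact_mod_cast hd
  have hN0 : (0 : ℝ) < N := by exact_mod_cast hN
  -- the shift
  set s : ℝ := (1 - 1 / √((d : ℝ) + 1)) / d with hs
  have hsq : √((d : ℝ) + 1) ^ 2 = (d : ℝ) + 1 := Real.sq_sqrt (by positivity)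
  have hsp : 0 < √((d : ℝ) + 1) := Real.sqrt_pos.mpr (by positivity)
  have hs2 : s ^ 2 * d - 2 * s = -(1 / ((d : ℝ) + 1)) := by
    have e1 : s ^ 2 * d - 2 * s = -(1 - 1 / √((d : ℝ) + 1) ^ 2) / d := by
      rw [hs]
      field_simp
      ring
    rw [e1, hsq]
    field_simp
    ring
  let f : Fin N → (Fin d × Fin d) → ℂ := fun i a =>
    x i a.1 * (starRingEnd ℂ) (x i a.2) - if a.1 = a.2 then (s : ℂ) else 0
  have hinner : ∀ i j, inner ℂ (x i) (x j) = ∑ k, (starRingEnd ℂ) (x i k) * x j k := by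
    intro i j
    rw [PiLp.inner_apply]
    refine sum_congr rfl fun k _ => ?_
    rw [RCLike.inner_apply, mul_comm]
  have hself : ∀ i, ∑ k, (starRingEnd ℂ) (x i k) * x i k = 1 := by
    intro i
    rw [← hinner, inner_self_eq_norm_sq_to_K, hx i]
    simp
  have hff : ∀ i j, ∑ a, (starRingEnd ℂ) (f i a) * f j a =
      ((‖inner ℂ (x i) (x j)‖ ^ 2 - 1 / ((d : ℝ) + 1) : ℝ) : ℂ) := by
    intro i j
    rw [Fintype.sum_prod_type]
    have e1 : ∀ k l, (starRingEnd ℂ) (f i (k, l)) * f j (k, l) =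
        ((starRingEnd ℂ) (x i k) * x j k) * (x i l * (starRingEnd ℂ) (x j l)) -
        (if k = l then (s : ℂ) * ((starRingEnd ℂ) (x i k) * x i k) else 0) -
        (if k = l then (s : ℂ) * ((starRingEnd ℂ) (x j k) * x j k) else 0) +
        (if k = l then (s : ℂ) ^ 2 else 0) := by
      intro k l
      simp only [f]
      by_cases hkl : k = l
      · subst hkl
        simp only [if_true, map_sub, map_mul, Complex.conj_conj, Complex.conj_ofReal]
        ring
      · simp only [if_neg hkl, map_mul, Complex.conj_conj, sub_zero, add_zero]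
        ring
    simp only [e1, sum_add_distrib, sum_sub_distrib]
    have e2 : ∑ k, ∑ l, ((starRingEnd ℂ) (x i k) * x j k) * (x i l * (starRingEnd ℂ) (x j l)) =
        ((‖inner ℂ (x i) (x j)‖ ^ 2 : ℝ) : ℂ) := by
      rw [← sum_mul_sum, ← hinner]
      have : ∑ l, x i l * (starRingEnd ℂ) (x j l) = (starRingEnd ℂ) (inner ℂ (x i) (x j)) := by
        rw [hinner, map_sum]
        refine sum_congr rfl fun l _ => ?_
        rw [map_mul, Complex.conj_conj]
      rw [this, Complex.mul_conj']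
      push_cast
      rfl
    have e3 : ∀ g : Fin d → ℂ, ∑ k, ∑ l, (if k = l then g k else 0) = ∑ k, g k := by
      intro g
      refine sum_congr rfl fun k _ => ?_
      rw [sum_ite_eq univ k]
      simp
    rw [e2, e3 (fun k => (s : ℂ) * ((starRingEnd ℂ) (x i k) * x i k)),
      e3 (fun k => (s : ℂ) * ((starRingEnd ℂ) (x j k) * x j k)), e3 (fun _ => (s : ℂ) ^ 2),
      ← mul_sum, ← mul_sum, hself, hself, sum_const, card_univ, Fintype.card_fin, nsmul_eq_mul]
    have e4 : ((s ^ 2 * d - 2 * s : ℝ) : ℂ) = ((-(1 / ((d : ℝ) + 1)) : ℝ) : ℂ) := by rw [hs2]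
    push_cast at e4 ⊢
    linear_combination e4
  have hdiag : ∀ i, ∑ a, ‖f i a‖ ^ 2 = (d : ℝ) / (d + 1) := by
    intro i
    have e1 := hff i i
    have e2 : ∑ a, (starRingEnd ℂ) (f i a) * f i a = ((∑ a, ‖f i a‖ ^ 2 : ℝ) : ℂ) := by
      push_cast
      refine sum_congr rfl fun a _ => ?_
      exact Complex.conj_mul' _
    rw [e2] at e1
    have e3 : ∑ a, ‖f i a‖ ^ 2 = ‖inner ℂ (x i) (x i)‖ ^ 2 - 1 / ((d : ℝ) + 1) := by
      exact_mod_cast e1
    rw [e3, inner_self_eq_norm_sq_to_K, hx i]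
    simp
    field_simp
    ring
  have hw := welch f
  rw [Fintype.card_prod, Fintype.card_fin] at hw
  simp only [hdiag, hff, Complex.norm_real, Real.norm_eq_abs, sq_abs] at hw
  rw [sum_const, card_univ, Fintype.card_fin, nsmul_eq_mul] at hw
  have hterm : ∀ i, ∑ j, (‖inner ℂ (x i) (x j)‖ ^ 2 - 1 / ((d : ℝ) + 1)) ^ 2 ≤
      ((d : ℝ) / (d + 1)) ^ 2 + (N - 1) * (ε / (d + 1)) ^ 2 := by
    intro i
    rw [← add_sum_erase univ _ (mem_univ i)]
    apply add_le_add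
    · rw [inner_self_eq_norm_sq_to_K, hx i]
      apply le_of_eq
      simp
      field_simp
      ring
    · calc ∑ j ∈ univ.erase i, (‖inner ℂ (x i) (x j)‖ ^ 2 - 1 / ((d : ℝ) + 1)) ^ 2 ≤
          ∑ _j ∈ univ.erase i, (ε / (d + 1)) ^ 2 := by
            refine sum_le_sum fun j hj => ?_
            have hij : i ≠ j := (Finset.ne_of_mem_erase hj).symm
            have h1 := h i j hij
            have h2 : ‖inner ℂ (x i) (x j)‖ ^ 2 - 1 / ((d : ℝ) + 1) =
                (((d : ℝ) + 1) * ‖inner ℂ (x i) (x j)‖ ^ 2 - 1) / (d + 1) := by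
              field_simp
            rw [h2, div_pow, div_pow]
            gcongr ?_ / _
            rw [← sq_abs]
            exact pow_le_pow_left₀ (abs_nonneg _) h1 2
        _ = (N - 1) * (ε / (d + 1)) ^ 2 := by
            rw [sum_const, card_erase_of_mem (mem_univ i), card_univ, Fintype.card_fin,
              nsmul_eq_mul, Nat.cast_sub hN]
            push_cast
            ring
  have hw2 : (N * ((d : ℝ) / (d + 1))) ^ 2 ≤ ((d * d : ℕ) : ℝ) *
      (N * (((d : ℝ) / (d + 1)) ^ 2 + (N - 1) * (ε / (d + 1)) ^ 2)) := by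
    refine hw.trans ?_
    gcongr
    calc ∑ i, ∑ j, (‖inner ℂ (x i) (x j)‖ ^ 2 - 1 / ((d : ℝ) + 1)) ^ 2 ≤
        ∑ _i : Fin N, (((d : ℝ) / (d + 1)) ^ 2 + (N - 1) * (ε / (d + 1)) ^ 2) :=
          sum_le_sum fun i _ => hterm i
      _ = _ := by rw [sum_const, card_univ, Fintype.card_fin, nsmul_eq_mul]
  push_cast at hw2
  have e1 : (N * ((d : ℝ) / (d + 1))) ^ 2 = (d ^ 2 * N / (d + 1) ^ 2) * N := by
    field_simp
  have e2 : ((d : ℝ) * d) * (N * (((d : ℝ) / (d + 1)) ^ 2 + (N - 1) * (ε / (d + 1)) ^ 2)) =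
      (d ^ 2 * N / (d + 1) ^ 2) * (d ^ 2 + (N - 1) * ε ^ 2) := by
    field_simp
  rw [e1, e2] at hw2
  have h3 := le_of_mul_le_mul_left hw2 (by positivity)
  linarith

end Pool.Agent.H52.SIC
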