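import Pool.Agent.H52.SIC.Gerzon
import Pool.Graph.R_seed8.Y387.AP.Main

/-!
# Sharpness of the bound for nearly equiangular vectors
-/

set_option autoImplicit false

open Finset

namespace Pool.Agent.H52.SIC

/-- primes in `(d + Z, d + 2 Z]` -/
lemma prime_between : ∃ (δ : ℝ) (X₀ : ℕ), 0 < δ ∧ δ < 1 ∧ ∀ d Z : ℕ, X₀ ≤ d → 1 ≤ Z → Z ≤ d →
    (2 * (d : ℝ)) ^ (1 - δ) ≤ Z → ∃ q : ℕ, q.Prime ∧ d + Z < q ∧ q ≤ d + 2 * Z := by
  obtain ⟨δ, η, hδ0, hδ1, hη, X₀, hX₀, h⟩ := Pool.Agent.H295R3.D.hoheisel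
  refine ⟨δ, max X₀ 2, hδ0, hδ1, fun d Z hd hZ hZd hZ2 => ?_⟩
  have hd1 : X₀ ≤ d := le_trans (le_max_left _ _) hd
  have hd2 : 2 ≤ d := le_trans (le_max_right _ _) hd
  have hdR : (2 : ℝ) ≤ d := by exact_mod_cast hd2
  have hZR : (1 : ℝ) ≤ Z := by exact_mod_cast hZ
  have hZdR : (Z : ℝ) ≤ d := by exact_mod_cast hZd
  have h1 := h (d + Z) Z (by omega) (by
    refine le_trans ?_ hZ2
    push_cast
    exact Real.rpow_le_rpow (by positivity) (by linarith) (by linarith)) (by omega)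
  have h2 : (0 : ℝ) < η * Z / Real.log ((d + Z : ℕ) : ℝ) := by
    apply div_pos (mul_pos hη (by linarith))
    apply Real.log_pos
    push_cast
    linarith
  have h3 : 0 < ((Ioc (d + Z) (d + Z + Z)).filter Nat.Prime).card := by
    have := lt_of_lt_of_le h2 h1
    exact_mod_cast this
  obtain ⟨q, hq⟩ := card_pos.mp h3
  rw [mem_filter, mem_Ioc] at hq
  exact ⟨q, hq.2, hq.1.1, by omega⟩

set_option maxHeartbeats 4000000 in
/-- **Sharpness.** -/
theorem count_large : ∃ (c δ : ℝ) (d₀ : ℕ), 0 < c ∧ 0 < δ ∧ ∀ d : ℕ, d₀ ≤ d →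
    ∀ ε : ℝ, (d : ℝ) ^ (-δ) ≤ ε → ε ≤ 1 →
    ∃ (N : ℕ) (x : Fin N → EuclideanSpace ℂ (Fin d)),
      (1 + c * ε ^ 2 / Real.log d) * (d : ℝ) ^ 2 ≤ N ∧ (∀ i, ‖x i‖ = 1) ∧
      (∀ u : EuclideanSpace ℂ (Fin d), ∑ i, ‖inner ℂ (x i) u‖ ^ 2 = (N : ℝ) / d * ‖u‖ ^ 2) ∧
      ∀ i j, i ≠ j → |((d : ℝ) + 1) * ‖inner ℂ (x i) (x j)‖ ^ 2 - 1| ≤ ε := by
  obtain ⟨δ, X₀, hδ0, hδ1, hq⟩ := prime_between
  set c : ℝ := 1 / 10 ^ 6 with hc
  have hc0 : 0 < c := by norm_num [hc]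
  -- largeness
  have hlim : ∃ n₀ : ℕ, ∀ d : ℕ, n₀ ≤ d → 8 / (c * δ) ≤ (d : ℝ) ^ (δ / 4) := by
    have h1 : Filter.Tendsto (fun d : ℕ => (d : ℝ) ^ (δ / 4)) Filter.atTop Filter.atTop :=
      (tendsto_rpow_atTop (by positivity : 0 < δ / 4)).comp tendsto_natCast_atTop_atTop
    exact Filter.eventually_atTop.mp (h1.eventually_ge_atTop _)
  obtain ⟨n₁, hn₁⟩ := hlim
  refine ⟨c, δ / 4, max (max X₀ 30) n₁, hc0, by positivity, fun d hd ε hε0 hε1 => ?_⟩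
  have hdX : X₀ ≤ d := (le_max_left _ _).trans ((le_max_left _ _).trans hd)
  have hd30 : 30 ≤ d := (le_max_right _ _).trans ((le_max_left _ _).trans hd)
  have hdn : n₁ ≤ d := (le_max_right _ _).trans hd
  have hdR : (30 : ℝ) ≤ d := by exact_mod_cast hd30
  have hd0 : (0 : ℝ) < d := by linarith
  have hd1 : (1 : ℝ) ≤ d := by linarith
  have hεp : 0 < ε := lt_of_lt_of_le (Real.rpow_pos_of_pos hd0 _) hε0
  set l := Real.log d with hl
  have hl1 : 1 ≤ l := by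
    rw [hl, Real.le_log_iff_exp_le hd0]
    have := Real.exp_one_lt_d9
    linarith
  have hlp : 0 < l := by linarith
  -- the size of `y`
  set y : ℝ := c * ε ^ 2 * d / l with hy
  have hy0 : 0 < y := by positivity
  have hyl : y * l = c * ε ^ 2 * d := by rw [hy]; field_simp
  have hyd : y ≤ c * ε ^ 2 * d := by rw [← hyl]; nlinarith
  have hlog : l ≤ (4 / δ) * (d : ℝ) ^ (δ / 4) := by
    have h1 := Real.log_le_rpow_div (x := (d : ℝ)) hd0.le (ε := δ / 4) (by positivity)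
    rw [← hl] at h1
    refine h1.trans (le_of_eq ?_)
    field_simp
  have hybig : 2 * (d : ℝ) ^ (1 - δ) ≤ y := by
    rw [hy, le_div_iff₀ hlp]
    have e1 : ((d : ℝ) ^ (-(δ / 4))) ^ 2 ≤ ε ^ 2 :=
      pow_le_pow_left₀ (Real.rpow_pos_of_pos hd0 _).le hε0 2
    have e2 : ((d : ℝ) ^ (-(δ / 4))) ^ 2 * d = (d : ℝ) ^ (1 - δ) * ((d : ℝ) ^ (δ / 4)) ^ 2 := by
      rw [← Real.rpow_natCast, ← Real.rpow_natCast, ← Real.rpow_mul hd0.le, ← Real.rpow_mul hd0.le]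
      nth_rewrite 2 [← Real.rpow_one (d : ℝ)]
      rw [← Real.rpow_add hd0, ← Real.rpow_add hd0]
      congr 1
      push_cast
      ring
    have e3 : 0 < (d : ℝ) ^ (1 - δ) := Real.rpow_pos_of_pos hd0 _
    set F := (d : ℝ) ^ (δ / 4) with hF
    have hF0 : 0 < F := Real.rpow_pos_of_pos hd0 _
    have hF1 : 8 / (c * δ) ≤ F := hn₁ d hdn
    have e4 : 2 * l ≤ c * F ^ 2 := by
      rw [div_le_iff₀ (by positivity)] at hF1
      calc 2 * l ≤ 2 * ((4 / δ) * F) := by gcongr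
        _ = (8 * F) / δ := by ring
        _ ≤ ((F * (c * δ)) * F) / δ := by gcongr
        _ = c * F ^ 2 := by field_simp
    calc 2 * (d : ℝ) ^ (1 - δ) * l = (d : ℝ) ^ (1 - δ) * (2 * l) := by ring
      _ ≤ (d : ℝ) ^ (1 - δ) * (c * F ^ 2) := by gcongr
      _ = c * ((d : ℝ) ^ (1 - δ) * F ^ 2) := by ring
      _ = c * (((d : ℝ) ^ (-(δ / 4))) ^ 2 * d) := by rw [← e2]
      _ ≤ c * (ε ^ 2 * d) := by gcongr
      _ = _ := by ring
  have hy1 : 1 ≤ y := by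
    have : 1 ≤ (d : ℝ) ^ (1 - δ) := Real.one_le_rpow hd1 (by linarith)
    linarith
  set Z : ℕ := ⌈y⌉₊ with hZ
  have hZ1 : y ≤ Z := Nat.le_ceil _
  have hZ2 : (Z : ℝ) ≤ 2 * y := by
    have := Nat.ceil_lt_add_one hy0.le
    rw [← hZ] at this
    linarith
  have hε2 : ε ^ 2 ≤ 1 := pow_le_one₀ hεp.le hε1
  have hε3 : ε ^ 2 ≤ ε := by
    rw [sq]
    exact mul_le_of_le_one_left hεp.le hε1
  have hcd : c * ε ^ 2 * d ≤ c * d := by
    have : c * ε ^ 2 ≤ c * 1 := by gcongr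
    nlinarith
  have hZd' : (Z : ℝ) ≤ d / 10 ^ 5 := by
    have e1 : 2 * (c * d) ≤ d / 10 ^ 5 := by rw [hc]; linarith
    calc (Z : ℝ) ≤ 2 * y := hZ2
      _ ≤ 2 * (c * d) := by gcongr; exact hyd.trans hcd
      _ ≤ d / 10 ^ 5 := e1
  have hZd : Z ≤ d := by
    have : (Z : ℝ) ≤ d := by linarith
    exact_mod_cast this
  have hZpos : 1 ≤ Z := by
    have : (1 : ℝ) ≤ Z := hy1.trans hZ1
    exact_mod_cast this
  have hZbig : (2 * (d : ℝ)) ^ (1 - δ) ≤ Z := by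
    have e1 : (2 * (d : ℝ)) ^ (1 - δ) ≤ 2 * (d : ℝ) ^ (1 - δ) := by
      rw [Real.mul_rpow (by norm_num) hd0.le]
      gcongr
      calc (2 : ℝ) ^ (1 - δ) ≤ 2 ^ (1 : ℝ) :=
            Real.rpow_le_rpow_of_exponent_le (by norm_num) (by linarith)
        _ = 2 := Real.rpow_one _
    linarith
  obtain ⟨p, hp, hp1, hp2⟩ := hq d Z hdX hZpos hZd hZbig
  have : Fact p.Prime := ⟨hp⟩
  have hZpR : (1 : ℝ) ≤ Z := by exact_mod_cast hZpos
  have hp1R : (d : ℝ) + Z < p := by exact_mod_cast hp1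
  have hp2R : (p : ℝ) ≤ d + 2 * Z := by exact_mod_cast hp2
  have hpR : (0 : ℝ) < p := by linarith
  have hp2d : (p : ℝ) ≤ 2 * d := by linarith
  obtain ⟨v, hv1, hv2, hv3, -⟩ := Pool.Agent.Y387.AP.frame2 p d (by omega) (by omega) (3 * l)
    (by linarith)
    (by
      have h1 : 2 * (2 * ((p : ℝ) ^ 2 + p + 1) + 1) ≤ (d : ℝ) ^ 3 :=
        Pool.Agent.Y387.AP.aux1 hpR.le hp2d hdR
      calc Real.log (2 * (2 * ((p : ℝ) ^ 2 + p + 1) + 1)) ≤ Real.log ((d : ℝ) ^ 3) :=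
            Real.log_le_log (by positivity) h1
        _ = 3 * l := by rw [Real.log_pow]; norm_num [hl]) 0 (Nat.zero_le _)
  refine ⟨p ^ 2 + p + 1, v, ?_, hv1, hv3, fun i j hij => ?_⟩
  · push_cast
    have e1 : (1 + c * ε ^ 2 / l) * (d : ℝ) ^ 2 = d ^ 2 + d * y := by rw [hy]; ring
    rw [e1]
    have e2 : ((d : ℝ) + Z) ^ 2 ≤ p ^ 2 := pow_le_pow_left₀ (by positivity) hp1R.le 2
    have e3 : (d : ℝ) * y ≤ d * Z := by gcongr
    nlinarith [mul_nonneg hd0.le (by linarith : (0 : ℝ) ≤ Z), sq_nonneg (Z : ℝ)]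
  · set m : ℕ := p + 1 - d with hm
    have hmR : (m : ℝ) = p + 1 - d := by
      rw [hm, Nat.cast_sub (by omega)]
      push_cast
      ring
    have hm1 : (m : ℝ) ≤ 3 * Z := by rw [hmR]; linarith
    set E : ℝ := 9 * √((m : ℝ) * (3 * l)) with hE
    have hsd : 0 < √(d : ℝ) := Real.sqrt_pos.mpr hd0
    have hsd2 : √(d : ℝ) * √d = d := Real.mul_self_sqrt hd0.le
    have hE1 : E ≤ 9 / 200 * (ε * √d) := by
      have e1 : (m : ℝ) * (3 * l) ≤ (1 / 200 * (ε * √d)) ^ 2 := by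
        calc (m : ℝ) * (3 * l) ≤ (3 * Z) * (3 * l) := by gcongr
          _ ≤ (3 * (2 * y)) * (3 * l) := by gcongr
          _ = 18 * (y * l) := by ring
          _ = 18 * (c * ε ^ 2 * d) := by rw [hyl]
          _ ≤ (1 / 200) ^ 2 * (ε ^ 2 * (√d * √d)) := by
              rw [hsd2, hc]
              have : 0 ≤ ε ^ 2 * (d : ℝ) := by positivity
              nlinarith
          _ = _ := by ring
      have e2 : √((m : ℝ) * (3 * l)) ≤ 1 / 200 * (ε * √d) := by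
        calc √((m : ℝ) * (3 * l)) ≤ √((1 / 200 * (ε * √d)) ^ 2) := Real.sqrt_le_sqrt e1
          _ = _ := Real.sqrt_sq (by positivity)
      rw [hE]
      linarith
    set x : ℝ := (d : ℝ) * ‖inner ℂ (v i) (v j)‖ with hx
    have hx1 : |x - √p| ≤ E := hv2 i j hij
    have hx0 : 0 ≤ x := by positivity
    have hsp : √(p : ℝ) ≤ 3 / 2 * √d := by
      rw [Real.sqrt_le_left (by positivity), mul_pow, Real.sq_sqrt hd0.le]
      linarith
    have h1 : ((d : ℝ) + 1) * ‖inner ℂ (v i) (v j)‖ ^ 2 - 1 =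
        (d + 1) / d ^ 2 * (x ^ 2 - p) + ((d + 1) * p - d ^ 2) / d ^ 2 := by
      rw [hx]
      field_simp
      ring
    have h2 : |x ^ 2 - p| ≤ 9 / 50 * (ε * d) := by
      have e1 : x ^ 2 - p = (x - √p) * (x + √p) := Pool.Agent.Y387.AP.aux6 hpR.le
      have e2 : x + √p ≤ 4 * √d := by
        have g1 := (abs_le.mp hx1).2
        have g2 : E ≤ 1 * √d := by
          refine hE1.trans ?_
          have : ε * √d ≤ 1 * √d := by gcongr
          linarith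
        linarith
      have e3 : 0 ≤ x + √p := by positivity
      rw [e1, abs_mul, abs_of_nonneg e3]
      calc |x - √p| * (x + √p) ≤ (9 / 200 * (ε * √d)) * (4 * √d) :=
            mul_le_mul (hx1.trans hE1) e2 e3 (by positivity)
        _ = 9 / 50 * (ε * (√d * √d)) := by ring
        _ = _ := by rw [hsd2]
    have h3 : |((d + 1) * p - d ^ 2) / (d : ℝ) ^ 2| ≤ ε / 10 := by
      have e0 : 0 ≤ ((d : ℝ) + 1) * p - d ^ 2 := by nlinarith
      rw [abs_of_nonneg (div_nonneg e0 (by positivity)), div_le_iff₀ (by positivity)]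
      have e1 : ((d : ℝ) + 1) * p - d ^ 2 ≤ 5 * Z * d := by nlinarith
      have e2 : 5 * (Z : ℝ) * d ≤ ε / 10 * d ^ 2 := by
        have e3 : (Z : ℝ) ≤ 2 * (c * ε ^ 2 * d) := by linarith
        have e4 : (Z : ℝ) ≤ 2 * (c * ε * d) := by
          refine e3.trans ?_
          gcongr
        have e5 : 5 * (Z : ℝ) ≤ ε / 10 * d := by
          rw [hc] at e4
          have : 0 ≤ ε * (d : ℝ) := by positivity
          nlinarith
        calc 5 * (Z : ℝ) * d ≤ (ε / 10 * d) * d := by gcongr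
          _ = _ := by ring
      exact e1.trans e2
    rw [h1]
    calc |(d + 1) / d ^ 2 * (x ^ 2 - p) + ((d + 1) * p - d ^ 2) / (d : ℝ) ^ 2|
        ≤ |(d + 1) / (d : ℝ) ^ 2 * (x ^ 2 - p)| + |((d + 1) * p - d ^ 2) / (d : ℝ) ^ 2| :=
          abs_add_le _ _
      _ ≤ 2 / d * (9 / 50 * (ε * d)) + ε / 10 := by
          apply add_le_add _ h3
          rw [abs_mul]
          apply mul_le_mul _ h2 (abs_nonneg _) (by positivity)
          rw [abs_of_nonneg (by positivity)]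
          exact Pool.Agent.Y387.AP.aux5 (by linarith)
      _ = 9 / 25 * ε + ε / 10 := by
          field_simp
          norm_num
      _ ≤ ε := by linarith

end Pool.Agent.H52.SIC
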