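import Mathlib

/-!
# Correction of nearly tight, nearly equiangular families to exactly tight ones
-/

set_option autoImplicit false

open Finset InnerProductSpace

namespace Pool.Agent.H52.SIC

set_option linter.unusedSectionVars false

variable {V : Type*} [NormedAddCommGroup V] [InnerProductSpace ℂ V] [CompleteSpace V]

/-! ### Operators close to the identity -/

lemma opNorm_le {T : V →L[ℂ] V} {C : ℝ} (hC : 0 ≤ C)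
    (h : ∀ u v, ‖⟪T u, v⟫_ℂ‖ ≤ C * ‖u‖ * ‖v‖) : ‖T‖ ≤ C := by
  refine T.opNorm_le_bound hC fun u => ?_
  rcases eq_or_ne (‖T u‖) 0 with h0 | h0
  · rw [h0]; positivity
  have h1 := h u (T u)
  rw [inner_self_eq_norm_sq_to_K] at h1
  have h2 : ‖((‖T u‖ : ℂ)) ^ 2‖ = ‖T u‖ * ‖T u‖ := by
    rw [norm_pow, Complex.norm_real, norm_norm, sq]
  have h3 : ‖T u‖ * ‖T u‖ ≤ C * ‖u‖ * ‖T u‖ := by
    rw [← h2]; exact h1
  exact le_of_mul_le_mul_right h3 (lt_of_le_of_ne (norm_nonneg _) (Ne.symm h0))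

/-- the inverse of `1 + K` -/
noncomputable def res (K : V →L[ℂ] V) : V →L[ℂ] V := Ring.inverse (1 + K)

lemma isUnit_one_add {K : V →L[ℂ] V} (hK : ‖K‖ ≤ 1 / 4) : IsUnit (1 + K) := by
  have : IsUnit (1 - (-K)) := isUnit_one_sub_of_norm_lt_one (by rw [norm_neg]; linarith)
  rwa [sub_neg_eq_add] at this

lemma res_mul {K : V →L[ℂ] V} (hK : ‖K‖ ≤ 1 / 4) : res K * (1 + K) = 1 :=
  Ring.inverse_mul_cancel _ (isUnit_one_add hK)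

lemma mul_res {K : V →L[ℂ] V} (hK : ‖K‖ ≤ 1 / 4) : (1 + K) * res K = 1 :=
  Ring.mul_inverse_cancel _ (isUnit_one_add hK)

lemma norm_one_le' : ‖(1 : V →L[ℂ] V)‖ ≤ 1 := ContinuousLinearMap.norm_id_le

lemma res_sub_one {K : V →L[ℂ] V} (hK : ‖K‖ ≤ 1 / 4) : ‖res K - 1‖ ≤ 4 / 3 * ‖K‖ := by
  have h1 : res K - 1 = -K - (res K - 1) * K := by
    have := res_mul hK
    rw [mul_add, mul_one] at this
    rw [sub_mul, one_mul, ← this]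
    abel
  have h2 : ‖res K - 1‖ ≤ ‖K‖ + ‖res K - 1‖ * ‖K‖ := by
    calc ‖res K - 1‖ = ‖-K - (res K - 1) * K‖ := by rw [← h1]
      _ ≤ ‖-K‖ + ‖(res K - 1) * K‖ := norm_sub_le _ _
      _ ≤ ‖K‖ + ‖res K - 1‖ * ‖K‖ := by rw [norm_neg]; gcongr; exact norm_mul_le _ _
  nlinarith [norm_nonneg (res K - 1), norm_nonneg K]

lemma norm_res {K : V →L[ℂ] V} (hK : ‖K‖ ≤ 1 / 4) : ‖res K‖ ≤ 4 / 3 := by
  have h := res_sub_one hK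
  have h1 : ‖res K‖ ≤ ‖res K - 1‖ + ‖(1 : V →L[ℂ] V)‖ := by
    calc ‖res K‖ = ‖(res K - 1) + 1‖ := by simp
      _ ≤ _ := norm_add_le _ _
  have := norm_one_le' (V := V)
  linarith

lemma res_selfAdjoint {K : V →L[ℂ] V} (hs : IsSelfAdjoint K) : IsSelfAdjoint (res K) := by
  unfold res IsSelfAdjoint
  rw [← Ring.inverse_star, star_add, star_one, hs.star_eq]

lemma res_expand {K : V →L[ℂ] V} (hK : ‖K‖ ≤ 1 / 4) : res K = 1 - K + K * (res K * K) := by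
  have h1 := res_mul hK
  have h2 := mul_res hK
  have h3 : res K * K = 1 - res K := by
    rw [mul_add, mul_one] at h1
    rw [← h1]; abel
  have h4 : K * res K = 1 - res K := by
    rw [add_mul, one_mul] at h2
    rw [← h2]; abel
  rw [h3, mul_sub, mul_one, h4]
  abel

lemma res_sub_res {K K' : V →L[ℂ] V} (hK : ‖K‖ ≤ 1 / 4) (hK' : ‖K'‖ ≤ 1 / 4) :
    res K - res K' = -(res K * ((K - K') * res K')) := by
  have h1 := res_mul hK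
  have h2 := mul_res hK'
  calc res K - res K' = res K * ((1 + K') * res K') - (res K * (1 + K)) * res K' := by
        rw [h1, h2, mul_one, one_mul]
    _ = _ := by noncomm_ring

/-! ### Frame operators -/

variable {ι : Type*} [Fintype ι]

/-- the weighted frame operator -/
noncomputable def fr (x : ι → V) (w : ι → ℝ) : V →L[ℂ] V :=
  ∑ k, ((w k : ℝ) : ℂ) • rankOne ℂ (x k) (x k)

lemma inner_fr (x : ι → V) (w : ι → ℝ) (u v : V) :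
    ⟪fr x w u, v⟫_ℂ = ∑ k, (w k : ℂ) * (⟪u, x k⟫_ℂ * ⟪x k, v⟫_ℂ) := by
  unfold fr
  rw [_root_.sum_apply, sum_inner]
  refine sum_congr rfl fun k _ => ?_
  rw [_root_.smul_apply, inner_smul_left, inner_left_rankOne_apply,
    Complex.conj_ofReal]

lemma inner_fr_right (x : ι → V) (w : ι → ℝ) (u v : V) :
    ⟪u, fr x w v⟫_ℂ = ∑ k, (w k : ℂ) * (⟪u, x k⟫_ℂ * ⟪x k, v⟫_ℂ) := by
  unfold fr
  rw [_root_.sum_apply, inner_sum]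
  refine sum_congr rfl fun k _ => ?_
  rw [_root_.smul_apply, inner_smul_right, inner_right_rankOne_apply]

lemma fr_selfAdjoint (x : ι → V) (w : ι → ℝ) : IsSelfAdjoint (fr x w) := by
  rw [ContinuousLinearMap.isSelfAdjoint_iff_isSymmetric]
  intro u v
  show ⟪fr x w u, v⟫_ℂ = ⟪u, fr x w v⟫_ℂ
  rw [inner_fr, inner_fr_right]

lemma fr_add (x : ι → V) (w w' : ι → ℝ) : fr x (w + w') = fr x w + fr x w' := by
  unfold fr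
  rw [← sum_add_distrib]
  refine sum_congr rfl fun k _ => ?_
  rw [Pi.add_apply, Complex.ofReal_add, add_smul]

lemma fr_sub (x : ι → V) (w w' : ι → ℝ) : fr x (w - w') = fr x w - fr x w' := by
  unfold fr
  rw [← sum_sub_distrib]
  refine sum_congr rfl fun k _ => ?_
  rw [Pi.sub_apply, Complex.ofReal_sub, sub_smul]

/-- near tightness -/
def Near (d : ℝ) (κ : ℝ) (x : ι → V) : Prop :=
  ∀ u v, ‖∑ k, ⟪u, x k⟫_ℂ * ⟪x k, v⟫_ℂ - d * ⟪u, v⟫_ℂ‖ ≤ κ * d * ‖u‖ * ‖v‖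

lemma sum_self (x : ι → V) (u : V) :
    ∑ k, ⟪u, x k⟫_ℂ * ⟪x k, u⟫_ℂ = ((∑ k, ‖⟪x k, u⟫_ℂ‖ ^ 2 : ℝ) : ℂ) := by
  push_cast
  refine sum_congr rfl fun k _ => ?_
  rw [← inner_conj_symm u (x k), ← Complex.normSq_eq_conj_mul_self, Complex.normSq_eq_norm_sq]
  push_cast
  rfl

lemma Near.bounds {d κ : ℝ} {x : ι → V} (h : Near d κ x) (u : V) :
    |∑ k, ‖⟪x k, u⟫_ℂ‖ ^ 2 - d * ‖u‖ ^ 2| ≤ κ * d * ‖u‖ ^ 2 := by
  have h1 := h u u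
  rw [sum_self, inner_self_eq_norm_sq_to_K] at h1
  have h2 : ((∑ k, ‖⟪x k, u⟫_ℂ‖ ^ 2 : ℝ) : ℂ) - (d : ℂ) * ((‖u‖ : ℝ) : ℂ) ^ 2 =
      ((∑ k, ‖⟪x k, u⟫_ℂ‖ ^ 2 - d * ‖u‖ ^ 2 : ℝ) : ℂ) := by push_cast; ring
  have h3 : ‖((∑ k, ‖⟪x k, u⟫_ℂ‖ ^ 2 - d * ‖u‖ ^ 2 : ℝ) : ℂ)‖ ≤ κ * d * ‖u‖ * ‖u‖ := by
    rw [← h2]; exact h1
  rw [Complex.norm_real, Real.norm_eq_abs] at h3
  linarith [h3, (by ring : κ * d * ‖u‖ * ‖u‖ = κ * d * ‖u‖ ^ 2)]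

lemma Near.upper {d κ : ℝ} {x : ι → V} (h : Near d κ x) (hd : 0 ≤ d) (hκ : κ ≤ 1 / 2) (u : V) :
    ∑ k, ‖⟪x k, u⟫_ℂ‖ ^ 2 ≤ 2 * d * ‖u‖ ^ 2 := by
  have h1 := (abs_le.mp (h.bounds u)).2
  have h2 : κ * d * ‖u‖ ^ 2 ≤ 1 / 2 * d * ‖u‖ ^ 2 := by gcongr
  have h3 : 0 ≤ d * ‖u‖ ^ 2 := by positivity
  linarith

lemma Near.lower {d κ : ℝ} {x : ι → V} (h : Near d κ x) (hd : 0 ≤ d) (hκ : κ ≤ 1 / 2) (u : V) :
    d / 2 * ‖u‖ ^ 2 ≤ ∑ k, ‖⟪x k, u⟫_ℂ‖ ^ 2 := by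
  have h1 := (abs_le.mp (h.bounds u)).1
  have h2 : κ * d * ‖u‖ ^ 2 ≤ 1 / 2 * d * ‖u‖ ^ 2 := by gcongr
  linarith

lemma norm_fr_le {d κ : ℝ} {x : ι → V} (h : Near d κ x) (hd : 0 ≤ d) (hκ : κ ≤ 1 / 2)
    (w : ι → ℝ) {W : ℝ} (hW : 0 ≤ W) (hw : ∀ k, |w k| ≤ W) : ‖fr x w‖ ≤ 2 * d * W := by
  refine opNorm_le (by positivity) fun u v => ?_
  rw [inner_fr]
  have h1 : ‖∑ k, (w k : ℂ) * (⟪u, x k⟫_ℂ * ⟪x k, v⟫_ℂ)‖ ≤ W * ∑ k, ‖⟪x k, u⟫_ℂ‖ * ‖⟪x k, v⟫_ℂ‖ := by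
    refine (norm_sum_le _ _).trans ?_
    rw [mul_sum]
    refine sum_le_sum fun k _ => ?_
    rw [norm_mul, norm_mul, Complex.norm_real, Real.norm_eq_abs, norm_inner_symm u (x k)]
    exact mul_le_mul_of_nonneg_right (hw k) (by positivity)
  refine h1.trans ?_
  have h2 : (∑ k, ‖⟪x k, u⟫_ℂ‖ * ‖⟪x k, v⟫_ℂ‖) ^ 2 ≤
      (∑ k, ‖⟪x k, u⟫_ℂ‖ ^ 2) * ∑ k, ‖⟪x k, v⟫_ℂ‖ ^ 2 := sum_mul_sq_le_sq_mul_sq _ _ _
  have h3 : (∑ k, ‖⟪x k, u⟫_ℂ‖ * ‖⟪x k, v⟫_ℂ‖) ^ 2 ≤ (2 * d * ‖u‖ * ‖v‖) ^ 2 := by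
    refine h2.trans ?_
    calc (∑ k, ‖⟪x k, u⟫_ℂ‖ ^ 2) * ∑ k, ‖⟪x k, v⟫_ℂ‖ ^ 2
        ≤ (2 * d * ‖u‖ ^ 2) * (2 * d * ‖v‖ ^ 2) := by
          gcongr
          · exact h.upper hd hκ u
          · exact h.upper hd hκ v
      _ = _ := by ring
  have h4 : ∑ k, ‖⟪x k, u⟫_ℂ‖ * ‖⟪x k, v⟫_ℂ‖ ≤ 2 * d * ‖u‖ * ‖v‖ :=
    (pow_le_pow_iff_left₀ (by positivity) (by positivity) two_ne_zero).mp h3
  calc W * ∑ k, ‖⟪x k, u⟫_ℂ‖ * ‖⟪x k, v⟫_ℂ‖ ≤ W * (2 * d * ‖u‖ * ‖v‖) := by gcongr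
    _ = _ := by ring

/-- a vector with small inner products with the family is small -/
lemma row {d : ℕ} {κ : ℝ} {x : ι → V} (h : Near d κ x) (hd : 1 ≤ d) (hκ : κ ≤ 1 / 2)
    (hn : Fintype.card ι = d ^ 2) (v : V) {B : ℝ} (hB : ∀ k, ‖⟪x k, v⟫_ℂ‖ ≤ B) :
    ‖v‖ ^ 2 ≤ 2 * d * B ^ 2 := by
  have hd0 : (0 : ℝ) < d := by exact_mod_cast hd
  have h1 := h.lower hd0.le hκ v
  have h2 : ∑ k, ‖⟪x k, v⟫_ℂ‖ ^ 2 ≤ (d : ℝ) ^ 2 * B ^ 2 := by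
    calc ∑ k, ‖⟪x k, v⟫_ℂ‖ ^ 2 ≤ ∑ _k : ι, B ^ 2 :=
          sum_le_sum fun k _ => pow_le_pow_left₀ (norm_nonneg _) (hB k) 2
      _ = (d : ℝ) ^ 2 * B ^ 2 := by
          rw [sum_const, card_univ, hn, nsmul_eq_mul]; push_cast; ring
  have h3 : (d : ℝ) * (‖v‖ ^ 2) ≤ d * (2 * d * B ^ 2) := by nlinarith
  exact le_of_mul_le_mul_left h3 hd0

/-! ### The fixed point equation -/

/-- mean value of the weights -/
noncomputable def tau (d : ℕ) (u : ι → ℝ) : ℝ := (∑ k, u k) / (d : ℝ) ^ 2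

/-- the trace free part of the frame operator with weights `u`, divided by `d` -/
noncomputable def opA (d : ℕ) (x : ι → V) (u : ι → ℝ) : V →L[ℂ] V :=
  ((1 / (d : ℝ) : ℝ) : ℂ) • fr x u - ((tau d u : ℝ) : ℂ) • (1 : V →L[ℂ] V)

/-- the operator `K` -/
noncomputable def opK (d : ℕ) (x : ι → V) (u : ι → ℝ) : V →L[ℂ] V :=
  ((1 / (d : ℝ) : ℝ) : ℂ) • fr x 1 - 1 + opA d x u

lemma abs_tau_le {d : ℕ} (hd : 1 ≤ d) (hn : Fintype.card ι = d ^ 2) (u : ι → ℝ) {W : ℝ}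
    (hw : ∀ k, |u k| ≤ W) : |tau d u| ≤ W := by
  have hd0 : (0 : ℝ) < (d : ℝ) ^ 2 := by
    have : (0 : ℝ) < d := by exact_mod_cast hd
    positivity
  unfold tau
  rw [abs_div, abs_of_pos hd0, div_le_iff₀ hd0]
  calc |∑ k, u k| ≤ ∑ k, |u k| := abs_sum_le_sum_abs _ _
    _ ≤ ∑ _k : ι, W := sum_le_sum fun k _ => hw k
    _ = W * (d : ℝ) ^ 2 := by
      rw [sum_const, card_univ, hn, nsmul_eq_mul]; push_cast; ring

lemma tau_sub (d : ℕ) (u u' : ι → ℝ) : tau d (u - u') = tau d u - tau d u' := by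
  unfold tau
  simp only [Pi.sub_apply, sum_sub_distrib]
  ring

lemma opA_sub (d : ℕ) (x : ι → V) (u u' : ι → ℝ) :
    opA d x (u - u') = opA d x u - opA d x u' := by
  unfold opA
  rw [fr_sub, tau_sub, smul_sub, Complex.ofReal_sub, sub_smul]
  abel

lemma opK_sub (d : ℕ) (x : ι → V) (u u' : ι → ℝ) :
    opK d x u - opK d x u' = opA d x (u - u') := by
  rw [opA_sub]
  unfold opK
  abel

lemma opA_zero (d : ℕ) (x : ι → V) : opA d x (0 : ι → ℝ) = 0 := by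
  unfold opA fr tau
  simp

lemma norm_opA_le {d : ℕ} {κ : ℝ} {x : ι → V} (h : Near d κ x) (hd : 1 ≤ d) (hκ : κ ≤ 1 / 2)
    (hn : Fintype.card ι = d ^ 2) (u : ι → ℝ) {W : ℝ} (hW : 0 ≤ W) (hw : ∀ k, |u k| ≤ W) :
    ‖opA d x u‖ ≤ 3 * W := by
  have hd0 : (0 : ℝ) < d := by exact_mod_cast hd
  unfold opA
  have h1 := norm_fr_le h hd0.le hκ u hW hw
  have h2 := abs_tau_le hd hn u hw
  calc ‖((1 / (d : ℝ) : ℝ) : ℂ) • fr x u - ((tau d u : ℝ) : ℂ) • (1 : V →L[ℂ] V)‖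
      ≤ ‖((1 / (d : ℝ) : ℝ) : ℂ) • fr x u‖ + ‖((tau d u : ℝ) : ℂ) • (1 : V →L[ℂ] V)‖ :=
        norm_sub_le _ _
    _ = 1 / d * ‖fr x u‖ + |tau d u| * ‖(1 : V →L[ℂ] V)‖ := by
        rw [norm_smul, norm_smul, Complex.norm_real, Complex.norm_real, Real.norm_eq_abs,
          Real.norm_eq_abs, abs_of_pos (by positivity : (0 : ℝ) < 1 / (d : ℝ))]
    _ ≤ 1 / d * (2 * d * W) + W * 1 := by
        gcongr
        exact norm_one_le'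
    _ = 3 * W := by field_simp; ring

lemma norm_K0_le {d : ℕ} {κ : ℝ} {x : ι → V} (h : Near d κ x) (hd : 1 ≤ d) (hκ0 : 0 ≤ κ) :
    ‖opK d x (0 : ι → ℝ)‖ ≤ κ := by
  have hd0 : (0 : ℝ) < d := by exact_mod_cast hd
  unfold opK
  rw [opA_zero, add_zero]
  refine opNorm_le hκ0 fun u v => ?_
  have h1 : ⟪(((1 / (d : ℝ) : ℝ) : ℂ) • fr x (1 : ι → ℝ) - 1 : V →L[ℂ] V) u, v⟫_ℂ =
      (1 / (d : ℂ)) * (∑ k, ⟪u, x k⟫_ℂ * ⟪x k, v⟫_ℂ - d * ⟪u, v⟫_ℂ) := by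
    rw [_root_.sub_apply, _root_.smul_apply, one_apply_eq_self, inner_sub_left,
      inner_smul_left, inner_fr, Complex.conj_ofReal]
    have hdC : (d : ℂ) ≠ 0 := by exact_mod_cast hd0.ne'
    simp only [Pi.one_apply, Complex.ofReal_one, one_mul]
    push_cast
    field_simp
  rw [h1, norm_mul, norm_div, norm_one, Complex.norm_natCast]
  have h2 := h u v
  calc 1 / (d : ℝ) * ‖∑ k, ⟪u, x k⟫_ℂ * ⟪x k, v⟫_ℂ - d * ⟪u, v⟫_ℂ‖ ≤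
      1 / (d : ℝ) * (κ * d * ‖u‖ * ‖v‖) := by
        gcongr
        exact_mod_cast h2
    _ = _ := by field_simp

lemma norm_opK_le {d : ℕ} {κ : ℝ} {x : ι → V} (h : Near d κ x) (hd : 1 ≤ d) (hκ0 : 0 ≤ κ)
    (hκ : κ ≤ 1 / 2) (hn : Fintype.card ι = d ^ 2) (u : ι → ℝ) {W : ℝ} (hW : 0 ≤ W)
    (hw : ∀ k, |u k| ≤ W) : ‖opK d x u‖ ≤ κ + 3 * W := by
  have h1 : opK d x u = opK d x (0 : ι → ℝ) + opA d x u := by
    unfold opK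
    rw [opA_zero, add_zero]
  rw [h1]
  exact (norm_add_le _ _).trans (add_le_add (norm_K0_le h hd hκ0) (norm_opA_le h hd hκ hn u hW hw))

lemma opK_selfAdjoint (d : ℕ) (x : ι → V) (u : ι → ℝ) : IsSelfAdjoint (opK d x u) := by
  unfold opK opA
  have h1 : ∀ (r : ℝ) (T : V →L[ℂ] V), IsSelfAdjoint T → IsSelfAdjoint ((r : ℂ) • T) := by
    intro r T hT
    unfold IsSelfAdjoint
    rw [star_smul, hT.star_eq]
    congr 1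
    exact Complex.conj_ofReal r
  exact ((h1 _ _ (fr_selfAdjoint x 1)).sub (IsSelfAdjoint.one _)).add
    ((h1 _ _ (fr_selfAdjoint x u)).sub (h1 _ _ (IsSelfAdjoint.one _)))

lemma diag_opA {d : ℕ} {x : ι → V} (hd : 1 ≤ d) (hn : Fintype.card ι = d ^ 2)
    (hx : ∀ i, ‖x i‖ = 1) {ε : ℝ} (hε : 0 ≤ ε)
    (h1 : ∀ i j, i ≠ j → |((d : ℝ) + 1) * ‖⟪x i, x j⟫_ℂ‖ ^ 2 - 1| ≤ ε)
    (u : ι → ℝ) {W : ℝ} (hW : 0 ≤ W) (hw : ∀ k, |u k| ≤ W) (i : ι) :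
    ‖⟪opA d x u (x i), x i⟫_ℂ‖ ≤ (ε + 3 / d) * W := by
  classical
  have hd0 : (0 : ℝ) < d := by exact_mod_cast hd
  have hd1 : (1 : ℝ) ≤ d := by exact_mod_cast hd
  have e1 : ⟪opA d x u (x i), x i⟫_ℂ =
      ((1 / d * ∑ k, u k * ‖⟪x k, x i⟫_ℂ‖ ^ 2 - (∑ k, u k) / (d : ℝ) ^ 2 : ℝ) : ℂ) := by
    unfold opA tau
    rw [_root_.sub_apply, _root_.smul_apply, _root_.smul_apply, one_apply_eq_self,
      inner_sub_left, inner_smul_left, inner_smul_left, inner_fr, Complex.conj_ofReal,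
      Complex.conj_ofReal, inner_self_eq_norm_sq_to_K, hx i]
    have : ∀ k, ⟪x i, x k⟫_ℂ * ⟪x k, x i⟫_ℂ = ((‖⟪x k, x i⟫_ℂ‖ ^ 2 : ℝ) : ℂ) := by
      intro k
      rw [← inner_conj_symm (x i) (x k), ← Complex.normSq_eq_conj_mul_self,
        Complex.normSq_eq_norm_sq]
    simp only [this]
    push_cast
    ring
  rw [e1, Complex.norm_real, Real.norm_eq_abs]
  have e2 : 1 / d * ∑ k, u k * ‖⟪x k, x i⟫_ℂ‖ ^ 2 - (∑ k, u k) / (d : ℝ) ^ 2 =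
      ∑ k, u k * (‖⟪x k, x i⟫_ℂ‖ ^ 2 / d - 1 / (d : ℝ) ^ 2) := by
    rw [mul_sum, sum_div, ← sum_sub_distrib]
    refine sum_congr rfl fun k _ => ?_
    field_simp
  rw [e2]
  have e3 : ∀ k, |u k * (‖⟪x k, x i⟫_ℂ‖ ^ 2 / d - 1 / (d : ℝ) ^ 2)| ≤
      W * ((if k = i then 1 / (d : ℝ) else 0) + (ε / (d : ℝ) ^ 2 + 1 / (d : ℝ) ^ 3)) := by
    intro k
    rw [abs_mul]
    refine mul_le_mul (hw k) ?_ (abs_nonneg _) hW
    by_cases hk : k = i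
    · subst hk
      rw [if_pos rfl, inner_self_eq_norm_sq_to_K, hx k]
      have : ‖((1 : ℝ) : ℂ) ^ 2‖ ^ 2 = 1 := by simp
      rw [show ‖((RCLike.ofReal (1 : ℝ) : ℂ)) ^ 2‖ ^ 2 = 1 by simp]
      have h3 : 0 ≤ 1 / (d : ℝ) - 1 / (d : ℝ) ^ 2 := by
        rw [sub_nonneg]
        apply one_div_le_one_div_of_le hd0
        nlinarith
      rw [abs_of_nonneg h3]
      have : 0 ≤ 1 / (d : ℝ) ^ 2 := by positivity
      have : 0 ≤ ε / (d : ℝ) ^ 2 := by positivity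
      have : 0 ≤ 1 / (d : ℝ) ^ 3 := by positivity
      linarith
    · rw [if_neg hk, zero_add]
      have h3 := h1 k i hk
      set a := ‖⟪x k, x i⟫_ℂ‖ ^ 2 with ha
      have h4 : a / d - 1 / (d : ℝ) ^ 2 = (1 / (d * (d + 1))) * ((d + 1) * a - 1) -
          1 / ((d : ℝ) ^ 2 * (d + 1)) := by
        field_simp
        ring
      rw [h4]
      have h5 : |(1 / ((d : ℝ) * (d + 1))) * ((d + 1) * a - 1)| ≤ 1 / (d : ℝ) ^ 2 * ε := by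
        rw [abs_mul, abs_of_pos (by positivity : (0 : ℝ) < 1 / ((d : ℝ) * (d + 1)))]
        refine mul_le_mul ?_ h3 (abs_nonneg _) (by positivity)
        apply one_div_le_one_div_of_le (by positivity)
        nlinarith
      have h6 : |1 / ((d : ℝ) ^ 2 * (d + 1))| ≤ 1 / (d : ℝ) ^ 3 := by
        rw [abs_of_pos (by positivity)]
        apply one_div_le_one_div_of_le (by positivity)
        nlinarith [sq_nonneg (d : ℝ)]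
      calc |(1 / ((d : ℝ) * (d + 1))) * ((d + 1) * a - 1) - 1 / ((d : ℝ) ^ 2 * (d + 1))|
          ≤ |(1 / ((d : ℝ) * (d + 1))) * ((d + 1) * a - 1)| + |1 / ((d : ℝ) ^ 2 * (d + 1))| :=
            abs_sub _ _
        _ ≤ 1 / (d : ℝ) ^ 2 * ε + 1 / (d : ℝ) ^ 3 := add_le_add h5 h6
        _ = _ := by ring
  calc |∑ k, u k * (‖⟪x k, x i⟫_ℂ‖ ^ 2 / d - 1 / (d : ℝ) ^ 2)|
      ≤ ∑ k, |u k * (‖⟪x k, x i⟫_ℂ‖ ^ 2 / d - 1 / (d : ℝ) ^ 2)| := abs_sum_le_sum_abs _ _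
    _ ≤ ∑ k, W * ((if k = i then 1 / (d : ℝ) else 0) + (ε / (d : ℝ) ^ 2 + 1 / (d : ℝ) ^ 3)) :=
        sum_le_sum fun k _ => e3 k
    _ = W * (1 / d + (d : ℝ) ^ 2 * (ε / (d : ℝ) ^ 2 + 1 / (d : ℝ) ^ 3)) := by
        rw [← mul_sum, sum_add_distrib, sum_ite_eq' univ i, if_pos (mem_univ _), sum_const,
          card_univ, hn, nsmul_eq_mul]
        push_cast
        ring
    _ = (ε + 2 / d) * W := by field_simp; ring
    _ ≤ (ε + 3 / d) * W := by gcongr; norm_num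

end Pool.Agent.H52.SIC
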