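import Pool.Agent.H52.SIC.Pert

/-!
# Existence of the correction
-/

set_option autoImplicit false

open Finset InnerProductSpace

namespace Pool.Agent.H52.SIC

set_option linter.unusedSectionVars false

variable {V : Type*} [NormedAddCommGroup V] [InnerProductSpace ℂ V] [CompleteSpace V]

variable {ι : Type*} [Fintype ι]

/-- entries of the resolvent -/
lemma res_entry {K : V →L[ℂ] V} (hK : ‖K‖ ≤ 1 / 4) (hs : IsSelfAdjoint K) (v w : V) :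
    ‖⟪res K v, w⟫_ℂ - ⟪v, w⟫_ℂ‖ ≤ ‖⟪K v, w⟫_ℂ‖ + 4 / 3 * ‖K v‖ * ‖K w‖ := by
  have hsym : ∀ a b, ⟪K a, b⟫_ℂ = ⟪a, K b⟫_ℂ := fun a b =>
    (ContinuousLinearMap.isSelfAdjoint_iff_isSymmetric.mp hs) a b
  have h1 : ⟪res K v, w⟫_ℂ - ⟪v, w⟫_ℂ = -⟪K v, w⟫_ℂ + ⟪res K (K v), K w⟫_ℂ := by
    conv_lhs => rw [res_expand hK]
    rw [_root_.add_apply, _root_.sub_apply, one_apply_eq_self, inner_add_left, inner_sub_left]
    have : (K * (res K * K)) v = K (res K (K v)) := rfl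
    rw [this, hsym (res K (K v)) w]
    ring
  rw [h1]
  refine (norm_add_le _ _).trans ?_
  rw [norm_neg]
  gcongr
  calc ‖⟪res K (K v), K w⟫_ℂ‖ ≤ ‖res K (K v)‖ * ‖K w‖ := norm_inner_le_norm _ _
    _ ≤ (‖res K‖ * ‖K v‖) * ‖K w‖ := by gcongr; exact (res K).le_opNorm _
    _ ≤ (4 / 3 * ‖K v‖) * ‖K w‖ := by gcongr; exact norm_res hK
    _ = _ := by ring

/-- the quadratic form of the resolvent at the members of the family -/
noncomputable def qf (d : ℕ) (x : ι → V) (u : ι → ℝ) (k : ι) : ℝ :=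
  (⟪res (opK d x u) (x k), x k⟫_ℂ).re

/-- the map whose fixed point gives the weights -/
noncomputable def step (d : ℕ) (x : ι → V) (u : ι → ℝ) (k : ι) : ℝ := 1 / qf d x u k - 1

section Contraction

variable {d : ℕ} {x : ι → V} {κ ε : ℝ}

lemma qf_near (hx : ∀ i, ‖x i‖ = 1) (u : ι → ℝ) (hK : ‖opK d x u‖ ≤ 1 / 80) (k : ι) :
    |qf d x u k - 1| ≤ 1 / 60 := by
  have h0 : ‖opK d x u‖ ≤ 1 / 4 := hK.trans (by norm_num)
  have h1 : ⟪(res (opK d x u) - 1) (x k), x k⟫_ℂ = ⟪res (opK d x u) (x k), x k⟫_ℂ - 1 := by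
    rw [_root_.sub_apply, one_apply_eq_self, inner_sub_left, inner_self_eq_norm_sq_to_K, hx k]
    simp
  have h2 : ‖⟪(res (opK d x u) - 1) (x k), x k⟫_ℂ‖ ≤ 1 / 60 := by
    calc ‖⟪(res (opK d x u) - 1) (x k), x k⟫_ℂ‖ ≤ ‖(res (opK d x u) - 1) (x k)‖ * ‖x k‖ :=
          norm_inner_le_norm _ _
      _ ≤ (‖res (opK d x u) - 1‖ * ‖x k‖) * ‖x k‖ := by
          gcongr; exact (res (opK d x u) - 1).le_opNorm _
      _ = ‖res (opK d x u) - 1‖ := by rw [hx k]; ring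
      _ ≤ 4 / 3 * ‖opK d x u‖ := res_sub_one h0
      _ ≤ 4 / 3 * (1 / 80) := by gcongr
      _ = 1 / 60 := by norm_num
  have h3 : qf d x u k - 1 = (⟪(res (opK d x u) - 1) (x k), x k⟫_ℂ).re := by
    rw [h1, Complex.sub_re, Complex.one_re]
    rfl
  rw [h3]
  exact (Complex.abs_re_le_norm _).trans h2

/-- the resolvent at two arguments -/
lemma qf_sub (hx : ∀ i, ‖x i‖ = 1) (u u' : ι → ℝ) (hK : ‖opK d x u‖ ≤ 1 / 80)
    (hK' : ‖opK d x u'‖ ≤ 1 / 80) (k : ι) :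
    |qf d x u k - qf d x u' k| ≤ ‖⟪opA d x (u - u') (x k), x k⟫_ℂ‖ +
      (1 / 60 + 1 / 60 + 1 / 60 * (1 / 60)) * ‖opA d x (u - u')‖ := by
  have h0 : ‖opK d x u‖ ≤ 1 / 4 := hK.trans (by norm_num)
  have h0' : ‖opK d x u'‖ ≤ 1 / 4 := hK'.trans (by norm_num)
  set R := res (opK d x u) with hR
  set R' := res (opK d x u') with hR'
  set D := opA d x (u - u') with hD
  have hRs : ∀ a b, ⟪R a, b⟫_ℂ = ⟪a, R b⟫_ℂ := fun a b =>
    (ContinuousLinearMap.isSelfAdjoint_iff_isSymmetric.mp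
      (res_selfAdjoint (opK_selfAdjoint d x u))) a b
  have h1 : R - R' = -(R * (D * R')) := by
    rw [hR, hR', hD, ← opK_sub]
    exact res_sub_res h0 h0'
  have h2 : qf d x u k - qf d x u' k = (⟪(R - R') (x k), x k⟫_ℂ).re := by
    rw [_root_.sub_apply, inner_sub_left, Complex.sub_re]
    rfl
  have h3 : ⟪(R - R') (x k), x k⟫_ℂ = -⟪D (R' (x k)), R (x k)⟫_ℂ := by
    rw [h1, _root_.neg_apply, inner_neg_left]
    have : (R * (D * R')) (x k) = R (D (R' (x k))) := rfl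
    rw [this, hRs]
  set a := (R - 1) (x k) with ha
  set a' := (R' - 1) (x k) with ha'
  have ea : R (x k) = x k + a := by
    rw [ha, _root_.sub_apply, one_apply_eq_self]; abel
  have ea' : R' (x k) = x k + a' := by
    rw [ha', _root_.sub_apply, one_apply_eq_self]; abel
  have na : ‖a‖ ≤ 1 / 60 := by
    calc ‖a‖ ≤ ‖R - 1‖ * ‖x k‖ := (R - 1).le_opNorm _
      _ = ‖R - 1‖ := by rw [hx k, mul_one]
      _ ≤ 4 / 3 * ‖opK d x u‖ := res_sub_one h0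
      _ ≤ 4 / 3 * (1 / 80) := by gcongr
      _ = 1 / 60 := by norm_num
  have na' : ‖a'‖ ≤ 1 / 60 := by
    calc ‖a'‖ ≤ ‖R' - 1‖ * ‖x k‖ := (R' - 1).le_opNorm _
      _ = ‖R' - 1‖ := by rw [hx k, mul_one]
      _ ≤ 4 / 3 * ‖opK d x u'‖ := res_sub_one h0'
      _ ≤ 4 / 3 * (1 / 80) := by gcongr
      _ = 1 / 60 := by norm_num
  have h4 : ⟪D (R' (x k)), R (x k)⟫_ℂ =
      ⟪D (x k), x k⟫_ℂ + (⟪D (x k), a⟫_ℂ + ⟪D a', x k⟫_ℂ + ⟪D a', a⟫_ℂ) := by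
    rw [ea, ea', map_add, inner_add_left, inner_add_right, inner_add_right]
    ring
  have b1 : ‖⟪D (x k), a⟫_ℂ‖ ≤ 1 / 60 * ‖D‖ := by
    calc ‖⟪D (x k), a⟫_ℂ‖ ≤ ‖D (x k)‖ * ‖a‖ := norm_inner_le_norm _ _
      _ ≤ (‖D‖ * ‖x k‖) * (1 / 60) := by gcongr; exact D.le_opNorm _
      _ = _ := by rw [hx k]; ring
  have b2 : ‖⟪D a', x k⟫_ℂ‖ ≤ 1 / 60 * ‖D‖ := by
    calc ‖⟪D a', x k⟫_ℂ‖ ≤ ‖D a'‖ * ‖x k‖ := norm_inner_le_norm _ _
      _ ≤ (‖D‖ * ‖a'‖) * ‖x k‖ := by gcongr; exact D.le_opNorm _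
      _ ≤ (‖D‖ * (1 / 60)) * ‖x k‖ := by gcongr
      _ = _ := by rw [hx k]; ring
  have b3 : ‖⟪D a', a⟫_ℂ‖ ≤ 1 / 60 * (1 / 60) * ‖D‖ := by
    calc ‖⟪D a', a⟫_ℂ‖ ≤ ‖D a'‖ * ‖a‖ := norm_inner_le_norm _ _
      _ ≤ (‖D‖ * ‖a'‖) * ‖a‖ := by gcongr; exact D.le_opNorm _
      _ ≤ (‖D‖ * (1 / 60)) * (1 / 60) := by gcongr
      _ = _ := by ring
  rw [h2]
  refine (Complex.abs_re_le_norm _).trans ?_
  rw [h3, norm_neg, h4]
  calc ‖⟪D (x k), x k⟫_ℂ + (⟪D (x k), a⟫_ℂ + ⟪D a', x k⟫_ℂ + ⟪D a', a⟫_ℂ)‖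
      ≤ ‖⟪D (x k), x k⟫_ℂ‖ + (‖⟪D (x k), a⟫_ℂ‖ + ‖⟪D a', x k⟫_ℂ‖ + ‖⟪D a', a⟫_ℂ‖) := by
        refine (norm_add_le _ _).trans ?_
        gcongr
        refine (norm_add_le _ _).trans ?_
        gcongr
        exact norm_add_le _ _
    _ ≤ ‖⟪D (x k), x k⟫_ℂ‖ + (1 / 60 * ‖D‖ + 1 / 60 * ‖D‖ + 1 / 60 * (1 / 60) * ‖D‖) := by
        gcongr
    _ = _ := by ring

lemma step_lipschitz (hd : 1000 ≤ d) (hn : Fintype.card ι = d ^ 2)
    (hx : ∀ i, ‖x i‖ = 1) (hε0 : 0 ≤ ε) (hε : ε ≤ 1 / 100) (hκ0 : 0 ≤ κ) (hκ : κ ≤ 1 / 200)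
    (h1 : ∀ i j, i ≠ j → |((d : ℝ) + 1) * ‖⟪x i, x j⟫_ℂ‖ ^ 2 - 1| ≤ ε) (h2 : Near d κ x)
    (u u' : ι → ℝ) (hu : ∀ k, |u k| ≤ 1 / 400) (hu' : ∀ k, |u' k| ≤ 1 / 400)
    {W : ℝ} (hW : 0 ≤ W) (hw : ∀ k, |u k - u' k| ≤ W) (k : ι) :
    |step d x u k - step d x u' k| ≤ 1 / 2 * W := by
  have hd1 : 1 ≤ d := le_trans (by norm_num) hd
  have hdR : (1000 : ℝ) ≤ d := by exact_mod_cast hd
  have hK : ‖opK d x u‖ ≤ 1 / 80 := by
    refine (norm_opK_le h2 hd1 hκ0 (by linarith) hn u (by norm_num) hu).trans ?_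
    linarith
  have hK' : ‖opK d x u'‖ ≤ 1 / 80 := by
    refine (norm_opK_le h2 hd1 hκ0 (by linarith) hn u' (by norm_num) hu').trans ?_
    linarith
  have q1 := abs_le.mp (qf_near hx u hK k)
  have q2 := abs_le.mp (qf_near hx u' hK' k)
  have h3 := qf_sub hx u u' hK hK' k
  have h4 := diag_opA hd1 hn hx hε0 h1 (u - u') hW hw k
  have h5 := norm_opA_le h2 hd1 (by linarith) hn (u - u') hW hw
  have h6 : 3 / (d : ℝ) ≤ 3 / 1000 := by gcongr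
  have h7 : |qf d x u k - qf d x u' k| ≤ 1 / 8 * W := by
    refine h3.trans ?_
    calc ‖⟪opA d x (u - u') (x k), x k⟫_ℂ‖ +
      (1 / 60 + 1 / 60 + 1 / 60 * (1 / 60)) * ‖opA d x (u - u')‖ ≤ (ε + 3 / d) * W +
        (1 / 60 + 1 / 60 + 1 / 60 * (1 / 60)) * (3 * W) := by gcongr
      _ ≤ (1 / 100 + 3 / 1000) * W + (1 / 60 + 1 / 60 + 1 / 60 * (1 / 60)) * (3 * W) := by gcongr
      _ ≤ 1 / 8 * W := by nlinarith
  unfold step
  have q1' : (59 : ℝ) / 60 ≤ qf d x u k := by linarith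
  have q2' : (59 : ℝ) / 60 ≤ qf d x u' k := by linarith
  have q1p : 0 < qf d x u k := by linarith
  have q2p : 0 < qf d x u' k := by linarith
  have h8 : 1 / qf d x u k - 1 - (1 / qf d x u' k - 1) =
      (qf d x u' k - qf d x u k) / (qf d x u k * qf d x u' k) := by
    field_simp
    ring
  rw [h8, abs_div, abs_sub_comm, abs_of_pos (mul_pos q1p q2p), div_le_iff₀ (mul_pos q1p q2p)]
  have h9 : (1 : ℝ) / 4 ≤ qf d x u k * qf d x u' k := by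
    calc (1 : ℝ) / 4 ≤ (59 / 60) * (59 / 60) := by norm_num
      _ ≤ _ := by gcongr
  calc |qf d x u k - qf d x u' k| ≤ 1 / 8 * W := h7
    _ = 1 / 2 * W * (1 / 4) := by ring
    _ ≤ 1 / 2 * W * (qf d x u k * qf d x u' k) := by gcongr

end Contraction

end Pool.Agent.H52.SIC
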