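import Pool.Agent.H52.SIC.Pert2

/-!
# The correction theorem
-/

set_option autoImplicit false

open Finset InnerProductSpace

namespace Pool.Agent.H52.SIC

set_option linter.unusedSectionVars false

variable {V : Type*} [NormedAddCommGroup V] [InnerProductSpace ℂ V] [FiniteDimensional ℂ V]

variable {ι : Type*} [Fintype ι]

variable {d : ℕ} {x : ι → V} {κ ε β : ℝ}

local instance : CompleteSpace V := FiniteDimensional.complete ℂ V

lemma inner_self_ofReal (v : V) : ⟪v, v⟫_ℂ = ((‖v‖ ^ 2 : ℝ) : ℂ) := by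
  rw [inner_self_eq_norm_sq_to_K, Complex.ofReal_pow]; rfl

/-- entries of `K 0` -/
lemma inner_K0 (hd : 1 ≤ d) (u v : V) : ⟪opK d x (0 : ι → ℝ) u, v⟫_ℂ =
      (1 / (d : ℂ)) * (∑ k, ⟪u, x k⟫_ℂ * ⟪x k, v⟫_ℂ - d * ⟪u, v⟫_ℂ) := by
  have hd0 : (0 : ℝ) < d := by exact_mod_cast hd
  unfold opK
  rw [opA_zero, add_zero, _root_.sub_apply, _root_.smul_apply, one_apply_eq_self, inner_sub_left,
      inner_smul_left, inner_fr, Complex.conj_ofReal]
  have hdC : (d : ℂ) ≠ 0 := by exact_mod_cast hd0.ne'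
  simp only [Pi.one_apply, Complex.ofReal_one, one_mul]
  push_cast
  field_simp

lemma entry_K0 (hd : 1 ≤ d)
    (h3 : ∀ i j, ‖∑ k, ⟪x i, x k⟫_ℂ * ⟪x k, x j⟫_ℂ - d * ⟪x i, x j⟫_ℂ‖ ≤ d * β) (i j : ι) :
    ‖⟪opK d x (0 : ι → ℝ) (x i), x j⟫_ℂ‖ ≤ β := by
  have hd0 : (0 : ℝ) < d := by exact_mod_cast hd
  rw [inner_K0 hd, norm_mul, norm_div, norm_one, Complex.norm_natCast]
  calc 1 / (d : ℝ) * ‖∑ k, ⟪x i, x k⟫_ℂ * ⟪x k, x j⟫_ℂ - d * ⟪x i, x j⟫_ℂ‖ ≤ 1 / (d : ℝ) * (d * β) := by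
        gcongr; exact h3 i j
    _ = β := by field_simp

/-- a bound for the vectors `K (x i)` from the entries -/
lemma norm_sq_of_entries {K : V →L[ℂ] V} (hd : 1 ≤ d)
    (hn : Fintype.card ι = d ^ 2) (hκ : κ ≤ 1 / 2) (h2 : Near d κ x) {B : ℝ}
    (hB : ∀ i j, ‖⟪K (x i), x j⟫_ℂ‖ ≤ B) (i : ι) : ‖K (x i)‖ ^ 2 ≤ 2 * d * B ^ 2 := by
  refine row h2 hd hκ hn _ fun k => ?_
  rw [norm_inner_symm]
  exact hB i k

lemma exists_fixed (hd : 1000 ≤ d) (hn : Fintype.card ι = d ^ 2)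
    (hx : ∀ i, ‖x i‖ = 1) (hε0 : 0 ≤ ε) (hε : ε ≤ 1 / 100) (hκ0 : 0 ≤ κ) (hκ : κ ≤ 1 / 200)
    (h1 : ∀ i j, i ≠ j → |((d : ℝ) + 1) * ‖⟪x i, x j⟫_ℂ‖ ^ 2 - 1| ≤ ε) (h2 : Near d κ x)
    (h3 : ∀ i j, ‖∑ k, ⟪x i, x k⟫_ℂ * ⟪x k, x j⟫_ℂ - d * ⟪x i, x j⟫_ℂ‖ ≤ d * β)
    (hβ0 : 0 ≤ β) (hβ : d * β ≤ 1) (hβ' : β ≤ 1 / 4800) :
    ∃ u : ι → ℝ, (∀ k, |u k| ≤ 12 * β) ∧ step d x u = u := by
  classical
  have hd1 : 1 ≤ d := le_trans (by norm_num) hd
  have hdR : (1000 : ℝ) ≤ d := by exact_mod_cast hd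
  set s : Set (ι → ℝ) := Metric.closedBall 0 (12 * β) with hs
  have hmem : ∀ u, u ∈ s ↔ ∀ k, |u k| ≤ 12 * β := by
    intro u
    rw [hs, mem_closedBall_zero_iff, pi_norm_le_iff_of_nonneg (by positivity)]
    rfl
  have hsc : IsComplete s := (Metric.isClosed_closedBall).isComplete
  -- value at zero
  have hK0 : ‖opK d x (0 : ι → ℝ)‖ ≤ 1 / 80 := (norm_K0_le h2 hd1 hκ0).trans (by linarith)
  have hF0 : ∀ k, |step d x (0 : ι → ℝ) k| ≤ 6 * β := by
    intro k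
    have e1 := res_entry (hK0.trans (by norm_num)) (opK_selfAdjoint d x 0) (x k) (x k)
    have e2 := entry_K0 hd1 h3 k k
    have e3 := norm_sq_of_entries hd1 hn (by linarith) h2
      (entry_K0 hd1 h3) k
    have e4 : |qf d x 0 k - 1| ≤ 4 * β := by
      have : qf d x 0 k - 1 = (⟪res (opK d x 0) (x k), x k⟫_ℂ - ⟪x k, x k⟫_ℂ).re := by
        rw [Complex.sub_re, inner_self_eq_norm_sq_to_K, hx k]
        simp [qf]
      rw [this]
      refine (Complex.abs_re_le_norm _).trans (e1.trans ?_)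
      have e5 : (d : ℝ) * β ^ 2 ≤ β := by nlinarith
      nlinarith
    have q1 := abs_le.mp (qf_near hx 0 hK0 k)
    have qp : 0 < qf d x 0 k := by linarith
    unfold step
    have : 1 / qf d x 0 k - 1 = -(qf d x 0 k - 1) / qf d x 0 k := by field_simp; ring
    rw [this, abs_div, abs_neg, abs_of_pos qp, div_le_iff₀ qp]
    nlinarith
  have hle : ∀ u ∈ s, ∀ k, |u k| ≤ 1 / 400 := fun u hu k =>
    ((hmem u).mp hu k).trans (by linarith)
  have hmaps : Set.MapsTo (step d x) s s := by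
    intro u hu
    rw [hmem]
    intro k
    have h0s : (0 : ι → ℝ) ∈ s := by rw [hmem]; intro k; simp; positivity
    have e1 := step_lipschitz hd hn hx hε0 hε hκ0 hκ h1 h2 u 0 (hle u hu) (hle 0 h0s)
      (W := 12 * β) (by positivity) (fun k => by simpa using (hmem u).mp hu k) k
    have e2 := hF0 k
    calc |step d x u k| = |(step d x u k - step d x 0 k) + step d x 0 k| := by ring_nf
      _ ≤ |step d x u k - step d x 0 k| + |step d x 0 k| := abs_add_le _ _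
      _ ≤ 1 / 2 * (12 * β) + 6 * β := add_le_add e1 e2
      _ = 12 * β := by ring
  have hcontr : ContractingWith (1 / 2 : NNReal) (hmaps.restrict (step d x) s s) := by
    refine ⟨by
      rw [← NNReal.coe_lt_coe]; norm_num, ?_⟩
    refine LipschitzWith.of_dist_le_mul fun a b => ?_
    rw [Subtype.dist_eq, Subtype.dist_eq]
    have hab : ∀ k, |(a : ι → ℝ) k - (b : ι → ℝ) k| ≤ dist (a : ι → ℝ) b := by
      intro k
      rw [← Real.dist_eq]
      exact dist_le_pi_dist _ _ k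
    rw [dist_pi_le_iff (by positivity)]
    intro k
    rw [Real.dist_eq]
    have := step_lipschitz hd hn hx hε0 hε hκ0 hκ h1 h2 a b (hle a a.2) (hle b b.2)
      (W := dist (a : ι → ℝ) b) dist_nonneg hab k
    simpa using this
  have h0s : (0 : ι → ℝ) ∈ s := by rw [hmem]; intro k; simp; positivity
  obtain ⟨u, hu, hfix, -⟩ := hcontr.exists_fixedPoint' hsc hmaps h0s (edist_ne_top _ _)
  exact ⟨u, (hmem u).mp hu, hfix⟩

/-- at a fixed point the mean of the weights vanishes -/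
lemma tau_eq_zero (hd : 1000 ≤ d) (hdim : Module.finrank ℂ V = d) (hn : Fintype.card ι = d ^ 2)
    (hx : ∀ i, ‖x i‖ = 1) (u : ι → ℝ) (hK : ‖opK d x u‖ ≤ 1 / 80) (hfix : step d x u = u) :
    tau d u = 0 := by
  have hd0 : (0 : ℝ) < d := by
    have : (1000 : ℝ) ≤ d := by exact_mod_cast hd
    linarith
  have hdC : (d : ℂ) ≠ 0 := by exact_mod_cast hd0.ne'
  have h4 : ‖opK d x u‖ ≤ 1 / 4 := hK.trans (by norm_num)
  set R := res (opK d x u) with hR
  -- the operator equation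
  have e1 : ((1 / (d : ℝ) : ℝ) : ℂ) • fr x (1 + u) =
      (1 + opK d x u) + ((tau d u : ℝ) : ℂ) • (1 : V →L[ℂ] V) := by
    rw [fr_add, smul_add]
    unfold opK opA
    abel
  have hq : ∀ k, ((1 + u k : ℝ) : ℂ) * ⟪x k, R (x k)⟫_ℂ = 1 := by
    intro k
    have q1 := abs_le.mp (qf_near hx u hK k)
    have qp : 0 < qf d x u k := by linarith
    have hk : 1 / qf d x u k - 1 = u k := congrFun hfix k
    have h5 : (1 + u k) * qf d x u k = 1 := by rw [← hk]; field_simp; ring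
    have hsym : ⟪R (x k), x k⟫_ℂ = ⟪x k, R (x k)⟫_ℂ :=
      (ContinuousLinearMap.isSelfAdjoint_iff_isSymmetric.mp
        (res_selfAdjoint (opK_selfAdjoint d x u))) (x k) (x k)
    have h6 : ⟪x k, R (x k)⟫_ℂ = ((qf d x u k : ℝ) : ℂ) := by
      apply Complex.ext
      · rw [← hsym]; simp [qf, hR]
      · have h7 : (starRingEnd ℂ) ⟪x k, R (x k)⟫_ℂ = ⟪x k, R (x k)⟫_ℂ := by
          rw [inner_conj_symm, hsym]
        have h8 := congrArg Complex.im h7
        rw [Complex.conj_im] at h8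
        rw [Complex.ofReal_im]
        linarith
    rw [h6, ← Complex.ofReal_mul, h5, Complex.ofReal_one]
  -- multiply by `R` and take traces
  have e2 : ∑ k, (((1 + u k : ℝ) : ℂ)) • (R ∘L rankOne ℂ (x k) (x k)) =
      (d : ℂ) • (1 : V →L[ℂ] V) + ((d : ℂ) * (tau d u : ℝ)) • R := by
    have h5 : R * fr x (1 + u) = (d : ℂ) • (1 : V →L[ℂ] V) + ((d : ℂ) * (tau d u : ℝ)) • R := by
      have h6 : fr x (1 + u) = (d : ℂ) • ((1 + opK d x u) + ((tau d u : ℝ) : ℂ) • (1 : V →L[ℂ] V)) := by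
        rw [← e1, smul_smul]
        push_cast
        rw [mul_one_div_cancel hdC, one_smul]
      rw [h6, mul_smul_comm, mul_add, res_mul h4, smul_add, mul_smul_comm, mul_one, smul_smul]
    rw [← h5]
    unfold fr
    rw [mul_sum]
    refine sum_congr rfl fun k _ => ?_
    rw [mul_smul_comm]
    rfl
  have e3 := congrArg (fun T : V →L[ℂ] V => LinearMap.trace ℂ V (T : V →ₗ[ℂ] V)) e2
  simp only [ContinuousLinearMap.toLinearMap_sum, ContinuousLinearMap.toLinearMap_smul, ContinuousLinearMap.toLinearMap_add,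
    map_sum, map_smul, map_add, InnerProductSpace.comp_rankOne, trace_rankOne] at e3
  have e4 : LinearMap.trace ℂ V ((1 : V →L[ℂ] V) : V →ₗ[ℂ] V) = d := by
    have : ((1 : V →L[ℂ] V) : V →ₗ[ℂ] V) = 1 := rfl
    rw [this, LinearMap.trace_one, hdim]
  rw [e4] at e3
  have e5 : ∑ k, (((1 + u k : ℝ) : ℂ)) • ⟪x k, R (x k)⟫_ℂ = (d : ℂ) ^ 2 := by
    simp only [smul_eq_mul, hq]
    rw [sum_const, card_univ, hn, nsmul_eq_mul, mul_one]
    push_cast
    rfl
  rw [e5] at e3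
  have e6 : (tau d u : ℂ) * LinearMap.trace ℂ V (R : V →ₗ[ℂ] V) = 0 := by
    have : (d : ℂ) * ((tau d u : ℂ) * LinearMap.trace ℂ V (R : V →ₗ[ℂ] V)) = 0 := by
      simp only [smul_eq_mul] at e3
      linear_combination -e3
    exact (mul_eq_zero.mp this).resolve_left hdC
  rcases mul_eq_zero.mp e6 with h | h
  · exact_mod_cast h
  · exfalso
    -- the trace of `R` is not zero
    let b := stdOrthonormalBasis ℂ V
    have h7 := LinearMap.trace_eq_sum_inner (R : V →ₗ[ℂ] V) b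
    rw [h] at h7
    have h8 : ∀ i, 59 / 60 ≤ (⟪b i, R (b i)⟫_ℂ).re := by
      intro i
      have hb : ‖b i‖ = 1 := b.orthonormal.1 i
      have h9 : ⟪b i, (R - 1) (b i)⟫_ℂ = ⟪b i, R (b i)⟫_ℂ - 1 := by
        rw [_root_.sub_apply, one_apply_eq_self, inner_sub_right, inner_self_eq_norm_sq_to_K, hb]
        simp
      have h10 : ‖⟪b i, (R - 1) (b i)⟫_ℂ‖ ≤ 1 / 60 := by
        calc ‖⟪b i, (R - 1) (b i)⟫_ℂ‖ ≤ ‖b i‖ * ‖(R - 1) (b i)‖ := norm_inner_le_norm _ _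
          _ ≤ ‖b i‖ * (‖R - 1‖ * ‖b i‖) := by gcongr; exact (R - 1).le_opNorm _
          _ = ‖R - 1‖ := by rw [hb]; ring
          _ ≤ 4 / 3 * ‖opK d x u‖ := res_sub_one h4
          _ ≤ 4 / 3 * (1 / 80) := by gcongr
          _ = 1 / 60 := by norm_num
      have h11 := (abs_le.mp ((Complex.abs_re_le_norm _).trans h10)).1
      rw [h9, Complex.sub_re, Complex.one_re] at h11
      linarith
    have h12 : (0 : ℝ) = ∑ i, (⟪b i, R (b i)⟫_ℂ).re := by
      have := congrArg Complex.re h7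
      rw [Complex.zero_re, Complex.re_sum] at this
      exact this
    have h13 : ∑ i, (⟪b i, R (b i)⟫_ℂ).re ≥ ∑ _i : Fin (Module.finrank ℂ V), (59 / 60 : ℝ) :=
      sum_le_sum fun i _ => h8 i
    rw [sum_const, card_univ, Fintype.card_fin, nsmul_eq_mul] at h13
    have h14 : ((Module.finrank ℂ V : ℕ) : ℝ) = d := by rw [hdim]
    rw [h14] at h13
    nlinarith

/-- **The correction theorem.** -/
theorem correct (hd : 5000 ≤ d) (hdim : Module.finrank ℂ V = d) (hn : Fintype.card ι = d ^ 2)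
    (hx : ∀ i, ‖x i‖ = 1) (hε0 : 0 ≤ ε) (hε : ε ≤ 1 / 100) (hκ0 : 0 ≤ κ) (hκ : κ ≤ 1 / 200)
    (h1 : ∀ i j, i ≠ j → |((d : ℝ) + 1) * ‖⟪x i, x j⟫_ℂ‖ ^ 2 - 1| ≤ ε) (h2 : Near d κ x)
    (h3 : ∀ i j, ‖∑ k, ⟪x i, x k⟫_ℂ * ⟪x k, x j⟫_ℂ - d * ⟪x i, x j⟫_ℂ‖ ≤ d * β)
    (hβ0 : 0 ≤ β) (hβ : d * β ≤ 1) :
    ∃ y : ι → V, (∀ i, ‖y i‖ = 1) ∧ (∀ u, ∑ i, ‖⟪y i, u⟫_ℂ‖ ^ 2 = d * ‖u‖ ^ 2) ∧
      ∀ i j, i ≠ j → |‖⟪y i, y j⟫_ℂ‖ ^ 2 - ‖⟪x i, x j⟫_ℂ‖ ^ 2| ≤ 10 ^ 8 * β / √d := by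
  classical
  have hd1 : 1 ≤ d := le_trans (by norm_num) hd
  have hdR : (5000 : ℝ) ≤ d := by exact_mod_cast hd
  have hd0 : (0 : ℝ) < d := by linarith
  have hβ' : β ≤ 1 / 4800 := by
    by_contra hcon
    push Not at hcon
    nlinarith
  obtain ⟨u, hu, hfix⟩ := exists_fixed (le_trans (by norm_num) hd) hn hx hε0 hε hκ0 hκ h1 h2 h3
    hβ0 hβ hβ'
  have hK : ‖opK d x u‖ ≤ 1 / 80 := by
    refine (norm_opK_le h2 hd1 hκ0 (by linarith) hn u (by norm_num : (0 : ℝ) ≤ 1 / 400)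
      (fun k => (hu k).trans (by linarith))).trans ?_
    linarith
  have h4 : ‖opK d x u‖ ≤ 1 / 4 := hK.trans (by norm_num)
  have htau := tau_eq_zero (le_trans (by norm_num) hd) hdim hn hx u hK hfix
  set R := res (opK d x u) with hR
  have hRs : IsSelfAdjoint R := res_selfAdjoint (opK_selfAdjoint d x u)
  have hRsym : ∀ a b, ⟪R a, b⟫_ℂ = ⟪a, R b⟫_ℂ := fun a b =>
    (ContinuousLinearMap.isSelfAdjoint_iff_isSymmetric.mp hRs) a b
  -- positivity and the square root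
  have hR1 : ‖R - 1‖ ≤ 1 / 60 := by
    calc ‖R - 1‖ ≤ 4 / 3 * ‖opK d x u‖ := res_sub_one h4
      _ ≤ 4 / 3 * (1 / 80) := by gcongr
      _ = 1 / 60 := by norm_num
  have hRpos : R.IsPositive := by
    rw [ContinuousLinearMap.isPositive_def]
    refine ⟨ContinuousLinearMap.isSelfAdjoint_iff_isSymmetric.mp hRs, fun v => ?_⟩
    rw [ContinuousLinearMap.reApplyInnerSelf_apply]
    have e1 : ⟪(R - 1) v, v⟫_ℂ = ⟪R v, v⟫_ℂ - ⟪v, v⟫_ℂ := by
      rw [_root_.sub_apply, one_apply_eq_self, inner_sub_left]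
    have e2 : ‖⟪(R - 1) v, v⟫_ℂ‖ ≤ 1 / 60 * ‖v‖ ^ 2 := by
      calc ‖⟪(R - 1) v, v⟫_ℂ‖ ≤ ‖(R - 1) v‖ * ‖v‖ := norm_inner_le_norm _ _
        _ ≤ (‖R - 1‖ * ‖v‖) * ‖v‖ := by gcongr; exact (R - 1).le_opNorm _
        _ ≤ (1 / 60 * ‖v‖) * ‖v‖ := by gcongr
        _ = _ := by ring
    have e3 := (abs_le.mp ((Complex.abs_re_le_norm _).trans e2)).1
    rw [e1, Complex.sub_re] at e3
    have e4 : (⟪v, v⟫_ℂ : ℂ).re = ‖v‖ ^ 2 := by
      rw [inner_self_ofReal]; exact Complex.ofReal_re _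
    rw [e4] at e3
    have e5 : RCLike.re ⟪R v, v⟫_ℂ = (⟪R v, v⟫_ℂ).re := rfl
    rw [e5]
    nlinarith [sq_nonneg ‖v‖]
  obtain ⟨B, hBs, hBB⟩ : ∃ B : V →L[ℂ] V, IsSelfAdjoint B ∧ B * B = R := by
    have h0 : 0 ≤ R := (ContinuousLinearMap.nonneg_iff_isPositive R).mpr hRpos
    exact ⟨CFC.sqrt R, (CFC.sqrt_nonneg R).isSelfAdjoint, CFC.sqrt_mul_sqrt_self R h0⟩
  have hBsym : ∀ a b, ⟪B a, b⟫_ℂ = ⟪a, B b⟫_ℂ := fun a b =>
    (ContinuousLinearMap.isSelfAdjoint_iff_isSymmetric.mp hBs) a b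
  have hBR : ∀ a b, ⟪B a, B b⟫_ℂ = ⟪R a, b⟫_ℂ := by
    intro a b
    rw [← hBsym, ← hBB]
    rfl
  -- the weights
  have hqk : ∀ k, (1 + u k) * qf d x u k = 1 := by
    intro k
    have q1 := abs_le.mp (qf_near hx u hK k)
    have qp : 0 < qf d x u k := by linarith
    have hk : 1 / qf d x u k - 1 = u k := congrFun hfix k
    rw [← hk]; field_simp; ring
  have huk : ∀ k, |u k| ≤ 1 / 400 := fun k => (hu k).trans (by linarith)
  have hwp : ∀ k, 0 < 1 + u k := fun k => by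
    have := abs_le.mp (huk k)
    linarith
  have hqi : ∀ k, ⟪R (x k), x k⟫_ℂ = ((qf d x u k : ℝ) : ℂ) := by
    intro k
    apply Complex.ext
    · simp [qf, hR]
    · have h7 : (starRingEnd ℂ) ⟪R (x k), x k⟫_ℂ = ⟪R (x k), x k⟫_ℂ := by
        rw [inner_conj_symm, hRsym]
      have h8 := congrArg Complex.im h7
      rw [Complex.conj_im] at h8
      rw [Complex.ofReal_im]
      linarith
  let y : ι → V := fun k => ((√(1 + u k) : ℝ) : ℂ) • B (x k)
  have hyy : ∀ i j, ⟪y i, y j⟫_ℂ = ((√(1 + u i) * √(1 + u j) : ℝ) : ℂ) * ⟪R (x i), x j⟫_ℂ := by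
    intro i j
    simp only [y]
    rw [inner_smul_left, inner_smul_right, Complex.conj_ofReal, hBR]
    push_cast
    ring
  refine ⟨y, ?_, ?_, ?_⟩
  · intro i
    have e1 := hyy i i
    rw [hqi, Real.mul_self_sqrt (hwp i).le, ← Complex.ofReal_mul, hqk, Complex.ofReal_one,
      inner_self_ofReal] at e1
    have e2 : (‖y i‖ ^ 2 : ℝ) = 1 := by exact_mod_cast e1
    have := norm_nonneg (y i)
    nlinarith [sq_nonneg (‖y i‖ - 1)]
  · intro v
    -- the frame operator of `y`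
    have hQ : ((1 / (d : ℝ) : ℝ) : ℂ) • fr x (1 + u) = (1 + opK d x u) := by
      rw [fr_add, smul_add]
      unfold opK opA
      rw [htau, Complex.ofReal_zero, zero_smul]
      abel
    have hBQB : B * ((1 + opK d x u) * B) = 1 := by
      have hRQ : R * (1 + opK d x u) = 1 := res_mul h4
      have hQR : (1 + opK d x u) * R = 1 := mul_res h4
      calc B * ((1 + opK d x u) * B) = B * ((1 + opK d x u) * B) * (R * (1 + opK d x u)) := by
            rw [hRQ, mul_one]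
        _ = B * ((1 + opK d x u) * (B * R) * (1 + opK d x u)) := by simp only [mul_assoc]
        _ = B * ((1 + opK d x u) * (R * B) * (1 + opK d x u)) := by
            rw [← hBB]; simp only [mul_assoc]
        _ = B * (B * (1 + opK d x u)) := by
            rw [← mul_assoc (1 + opK d x u) R B, hQR, one_mul]
        _ = 1 := by rw [← mul_assoc, hBB, hRQ]
    have e1 : ∑ i, ⟪v, y i⟫_ℂ * ⟪y i, v⟫_ℂ = (d : ℂ) * ⟪v, v⟫_ℂ := by
      have e2 : ∀ i, ⟪v, y i⟫_ℂ * ⟪y i, v⟫_ℂ =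
          (((1 : ι → ℝ) + u) i : ℂ) * (⟪B v, x i⟫_ℂ * ⟪x i, B v⟫_ℂ) := by
        intro i
        simp only [y]
        rw [inner_smul_left, inner_smul_right, Complex.conj_ofReal, hBsym (x i) v, ← hBsym v (x i)]
        have : ((√(1 + u i) : ℝ) : ℂ) * ((√(1 + u i) : ℝ) : ℂ) = ((1 + u i : ℝ) : ℂ) := by
          rw [← Complex.ofReal_mul, Real.mul_self_sqrt (hwp i).le]
        simp only [Pi.add_apply, Pi.one_apply]
        linear_combination (⟪B v, x i⟫_ℂ * ⟪x i, B v⟫_ℂ) * this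
      rw [sum_congr rfl fun i _ => e2 i, ← inner_fr]
      have hdC : (d : ℂ) ≠ 0 := by exact_mod_cast hd0.ne'
      have e3 : fr x (1 + u) = (d : ℂ) • (1 + opK d x u) := by
        rw [← hQ, smul_smul]
        push_cast
        rw [mul_one_div_cancel hdC, one_smul]
      rw [e3, _root_.smul_apply, inner_smul_left, ← hBsym]
      have e4 : B ((1 + opK d x u) (B v)) = v := by
        have := congrArg (fun T : V →L[ℂ] V => T v) hBQB
        exact this
      rw [e4]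
      congr 1
      exact Complex.conj_natCast d
    rw [sum_self, inner_self_ofReal] at e1
    exact_mod_cast e1
  · intro i j hij
    -- entries of `K`
    have f1 : ∀ i j, ‖⟪opK d x u (x i), x j⟫_ℂ‖ ≤ 37 * β := by
      intro i j
      have g1 : opK d x u = opK d x (0 : ι → ℝ) + opA d x u := by
        unfold opK
        rw [opA_zero, add_zero]
      have g2 : ‖⟪opA d x u (x i), x j⟫_ℂ‖ ≤ 3 * (12 * β) := by
        calc ‖⟪opA d x u (x i), x j⟫_ℂ‖ ≤ ‖opA d x u (x i)‖ * ‖x j‖ := norm_inner_le_norm _ _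
          _ ≤ (‖opA d x u‖ * ‖x i‖) * ‖x j‖ := by gcongr; exact (opA d x u).le_opNorm _
          _ = ‖opA d x u‖ := by rw [hx, hx]; ring
          _ ≤ 3 * (12 * β) := norm_opA_le h2 hd1 (by linarith) hn u (by positivity) hu
      rw [g1, _root_.add_apply, inner_add_left]
      calc ‖⟪opK d x 0 (x i), x j⟫_ℂ + ⟪opA d x u (x i), x j⟫_ℂ‖ ≤ β + 3 * (12 * β) :=
            (norm_add_le _ _).trans (add_le_add (entry_K0 hd1 h3 i j) g2)
        _ = 37 * β := by ring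
    have f2 : ∀ i, ‖opK d x u (x i)‖ ^ 2 ≤ 2 * d * (37 * β) ^ 2 := fun i =>
      norm_sq_of_entries hd1 hn (by linarith) h2 f1 i
    have f3 : ‖opK d x u (x i)‖ * ‖opK d x u (x j)‖ ≤ 2 * d * (37 * β) ^ 2 := by
      have := f2 i
      have := f2 j
      nlinarith [sq_nonneg (‖opK d x u (x i)‖ - ‖opK d x u (x j)‖)]
    have f4 : ‖⟪R (x i), x j⟫_ℂ - ⟪x i, x j⟫_ℂ‖ ≤ 3700 * β := by
      have := res_entry h4 (opK_selfAdjoint d x u) (x i) (x j)
      have g1 := f1 i j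
      have g2 : (d : ℝ) * β ^ 2 ≤ β := by nlinarith
      calc ‖⟪R (x i), x j⟫_ℂ - ⟪x i, x j⟫_ℂ‖ ≤ ‖⟪opK d x u (x i), x j⟫_ℂ‖ +
            4 / 3 * ‖opK d x u (x i)‖ * ‖opK d x u (x j)‖ := this
        _ = ‖⟪opK d x u (x i), x j⟫_ℂ‖ +
            4 / 3 * (‖opK d x u (x i)‖ * ‖opK d x u (x j)‖) := by ring
        _ ≤ 37 * β + 4 / 3 * (2 * d * (37 * β) ^ 2) := by gcongr
        _ ≤ 3700 * β := by nlinarith
    set t := ‖⟪x i, x j⟫_ℂ‖ with ht
    set t' := ‖⟪R (x i), x j⟫_ℂ‖ with ht'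
    have f5 : |t' - t| ≤ 3700 * β := (abs_norm_sub_norm_le _ _).trans f4
    have ht0 : 0 ≤ t := norm_nonneg _
    have ht'0 : 0 ≤ t' := norm_nonneg _
    -- size of `t`
    set r := 1 / √(d : ℝ) with hr
    have hr0 : 0 < r := by positivity
    have hr2 : r ^ 2 = 1 / d := by
      rw [hr, div_pow, one_pow, Real.sq_sqrt hd0.le]
    have f6 : t ≤ 2 * r := by
      have g1 := (abs_le.mp (h1 i j hij)).2
      rw [← ht] at g1
      have g2 : t ^ 2 ≤ (2 * r) ^ 2 := by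
        rw [mul_pow, hr2]
        have g3 : ((d : ℝ) + 1) * t ^ 2 ≤ 2 := by linarith
        have g4 : (d : ℝ) * t ^ 2 ≤ 2 := by nlinarith [sq_nonneg t]
        rw [show (2 : ℝ) ^ 2 * (1 / d) = 4 / d by ring, le_div_iff₀ hd0]
        linarith
      exact (pow_le_pow_iff_left₀ ht0 (by positivity) two_ne_zero).mp g2
    have hβr : β ≤ r ^ 2 := by
      rw [hr2, le_div_iff₀ hd0]
      linarith
    have hr1 : r ≤ 1 := by
      rw [hr, div_le_one (Real.sqrt_pos.mpr hd0)]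
      rw [Real.one_le_sqrt]
      linarith
    have hβr' : β ≤ r := by nlinarith
    have f7 : |t' ^ 2 - t ^ 2| ≤ 3700 * β * (3704 * r) := by
      have g1 : t' ^ 2 - t ^ 2 = (t' - t) * (t' + t) := by ring
      have g2 : t' + t ≤ 3704 * r := by
        have := (abs_le.mp f5).2
        linarith
      rw [g1, abs_mul, abs_of_nonneg (by positivity : 0 ≤ t' + t)]
      exact mul_le_mul f5 g2 (by positivity) (by positivity)
    have f8 : ‖⟪y i, y j⟫_ℂ‖ ^ 2 = (1 + u i) * (1 + u j) * t' ^ 2 := by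
      rw [hyy, norm_mul, Complex.norm_real, Real.norm_eq_abs,
        abs_of_nonneg (by positivity : 0 ≤ √(1 + u i) * √(1 + u j)), mul_pow, mul_pow,
        Real.sq_sqrt (hwp i).le, Real.sq_sqrt (hwp j).le]
    have f9 : |(1 + u i) * (1 + u j) - 1| ≤ 36 * β := by
      have g1 := hu i
      have g2 := hu j
      have g3 : (1 + u i) * (1 + u j) - 1 = u i + u j + u i * u j := by ring
      rw [g3]
      calc |u i + u j + u i * u j| ≤ |u i| + |u j| + |u i * u j| := by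
            refine (abs_add_le _ _).trans ?_
            gcongr
            exact abs_add_le _ _
        _ ≤ 12 * β + 12 * β + 12 * β * (1 / 400) := by
            rw [abs_mul]
            gcongr
            exact huk j
        _ ≤ 36 * β := by linarith
    have f10 : |(1 + u i) * (1 + u j)| ≤ 2 := by
      have := abs_le.mp f9
      rw [abs_le]
      constructor <;> linarith
    rw [f8]
    have g1 : (1 + u i) * (1 + u j) * t' ^ 2 - t ^ 2 =
        (1 + u i) * (1 + u j) * (t' ^ 2 - t ^ 2) + ((1 + u i) * (1 + u j) - 1) * t ^ 2 := by ring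
    have g2 : t ^ 2 ≤ 4 * r := by
      calc t ^ 2 ≤ (2 * r) ^ 2 := pow_le_pow_left₀ ht0 f6 2
        _ = 4 * (r * r) := by ring
        _ ≤ 4 * (r * 1) := by gcongr
        _ = 4 * r := by ring
    calc |(1 + u i) * (1 + u j) * t' ^ 2 - t ^ 2| ≤
        |(1 + u i) * (1 + u j) * (t' ^ 2 - t ^ 2)| + |((1 + u i) * (1 + u j) - 1) * t ^ 2| := by
          rw [g1]; exact abs_add_le _ _
      _ ≤ 2 * (3700 * β * (3704 * r)) + 36 * β * (4 * r) := by
          rw [abs_mul ((1 + u i) * (1 + u j)) _, abs_mul _ (t ^ 2), abs_of_nonneg (sq_nonneg t)]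
          gcongr
      _ = 27409744 * (β * r) := by ring
      _ ≤ 10 ^ 8 * (β * r) := by
          apply mul_le_mul_of_nonneg_right (by norm_num) (mul_nonneg hβ0 hr0.le)
      _ = 10 ^ 8 * β * r := by ring
      _ = 10 ^ 8 * β / √d := by rw [hr]; ring

end Pool.Agent.H52.SIC
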