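import Pool.Agent.H52.SIC.Pert3
import Pool.Graph.R_seed8.H109R2.SIC.Select

/-!
# Thinning a tight frame

From a tight frame of `N` unit vectors with small coherence we select `N - m` vectors such that the
frame operator stays close to a multiple of the identity, entrywise.
-/

set_option autoImplicit false

open Finset InnerProductSpace

namespace Pool.Agent.H52.SIC

set_option linter.unusedSectionVars false

variable {V : Type*} [NormedAddCommGroup V] [InnerProductSpace ℂ V] [FiniteDimensional ℂ V]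

local instance : CompleteSpace V := FiniteDimensional.complete ℂ V

variable {ι : Type*} [Fintype ι] [DecidableEq ι]

/-- the product, without the terms at `i` and `j` -/
noncomputable def hh (v : ι → V) (i j g : ι) : ℂ :=
  if g = i ∨ g = j then 0 else ⟪v i, v g⟫_ℂ * ⟪v g, v j⟫_ℂ

lemma norm_hh_le {v : ι → V} {M : ℝ} (hM0 : 0 < M)
    (hM : ∀ i j, i ≠ j → ‖⟪v i, v j⟫_ℂ‖ ^ 2 ≤ M) (i j g : ι) : ‖hh v i j g‖ ≤ M := by
  unfold hh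
  split_ifs with h
  · rw [norm_zero]; exact hM0.le
  · push Not at h
    have h1 := hM i g (Ne.symm h.1)
    have h2 := hM g j h.2
    rw [norm_mul]
    nlinarith [sq_nonneg (‖⟪v i, v g⟫_ℂ‖ - ‖⟪v g, v j⟫_ℂ‖)]

lemma thin_select (v : ι → V) {M : ℝ} (hM0 : 0 < M)
    (hM : ∀ i j, i ≠ j → ‖⟪v i, v j⟫_ℂ‖ ^ 2 ≤ M) (m : ℕ) (hm : m ≤ Fintype.card ι) (L : ℝ)
    (hL : Real.log (2 * (2 * (Fintype.card ι : ℝ) ^ 2 + 1)) ≤ L) :
    ∃ R : Finset ι, R.card = m ∧ ∀ i j, ‖∑ g ∈ R, hh v i j g -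
      (m / Fintype.card ι : ℝ) * ∑ g, hh v i j g‖ ≤ 8 * M * √(m * L) := by
  obtain ⟨R, -, hRc, hR⟩ := Pool.Agent.H109R2.SIC.select (univ : Finset ι)
    (univ : Finset (ι × ι × Bool))
    (fun t g => if t.2.2 = true then (hh v t.1 t.2.1 g).re / M else (hh v t.1 t.2.1 g).im / M)
    (by
      intro t _ g _
      have h1 := norm_hh_le hM0 hM t.1 t.2.1 g
      show |if t.2.2 = true then (hh v t.1 t.2.1 g).re / M else (hh v t.1 t.2.1 g).im / M| ≤ 1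
      split_ifs
      · rw [abs_div, abs_of_pos hM0, div_le_one hM0]
        exact (Complex.abs_re_le_norm _).trans h1
      · rw [abs_div, abs_of_pos hM0, div_le_one hM0]
        exact (Complex.abs_im_le_norm _).trans h1) m (by rw [card_univ]; exact hm) L
    (by
      rw [card_univ, Fintype.card_prod, Fintype.card_prod, Fintype.card_bool]
      push_cast
      refine le_trans (le_of_eq ?_) hL
      congr 1
      ring)
  refine ⟨R, hRc, fun i j => ?_⟩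
  have hre := hR (i, j, true) (mem_univ _)
  have him := hR (i, j, false) (mem_univ _)
  simp only [if_true, Bool.false_eq_true, if_false] at hre him
  rw [← sum_div, ← sum_div, ← Complex.re_sum, ← Complex.re_sum, card_univ] at hre
  rw [← sum_div, ← sum_div, ← Complex.im_sum, ← Complex.im_sum, card_univ] at him
  set a := ∑ g ∈ R, hh v i j g with ha
  set b := ∑ g, hh v i j g with hb
  set q : ℝ := (m / Fintype.card ι : ℝ) with hq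
  have e1 : (a - (q : ℂ) * b).re = a.re - q * b.re := by
    rw [Complex.sub_re, Complex.re_ofReal_mul]
  have e2 : (a - (q : ℂ) * b).im = a.im - q * b.im := by
    rw [Complex.sub_im, Complex.im_ofReal_mul]
  have f1 : |a.re - q * b.re| ≤ M * (4 * √(m * L)) := by
    have : a.re - q * b.re = M * (a.re / M - q * (b.re / M)) := by field_simp
    rw [this, abs_mul, abs_of_pos hM0]
    exact mul_le_mul_of_nonneg_left hre hM0.le
  have f2 : |a.im - q * b.im| ≤ M * (4 * √(m * L)) := by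
    have : a.im - q * b.im = M * (a.im / M - q * (b.im / M)) := by field_simp
    rw [this, abs_mul, abs_of_pos hM0]
    exact mul_le_mul_of_nonneg_left him hM0.le
  refine (Complex.norm_le_abs_re_add_abs_im _).trans ?_
  rw [e1, e2]
  linarith

/-- the terms at `i` and `j` -/
lemma sum_pair {v : ι → V} (hv : ∀ i, ‖v i‖ = 1) (R : Finset ι) (i j : ι) :
    ∃ c : ℝ, 0 ≤ c ∧ c ≤ 2 ∧ ∑ g ∈ R, ⟪v i, v g⟫_ℂ * ⟪v g, v j⟫_ℂ =
      ∑ g ∈ R, hh v i j g + c * ⟪v i, v j⟫_ℂ ∧ (i ∉ R → j ∉ R → c = 0) := by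
  have hself : ∀ k, ⟪v k, v k⟫_ℂ = (1 : ℂ) := by
    intro k
    rw [inner_self_eq_norm_sq_to_K, hv k]
    simp
  have h1 : ∀ g, ⟪v i, v g⟫_ℂ * ⟪v g, v j⟫_ℂ = hh v i j g +
      (if g = i ∨ g = j then (1 : ℂ) else 0) * ⟪v i, v j⟫_ℂ := by
    intro g
    unfold hh
    by_cases h : g = i ∨ g = j
    · rw [if_pos h, if_pos h]
      rcases h with h | h
      · subst h; rw [hself]; ring
      · subst h; rw [hself]; ring
    · rw [if_neg h, if_neg h]; ring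
  refine ⟨((R.filter fun g => g = i ∨ g = j).card : ℝ), by positivity, ?_, ?_, ?_⟩
  · have : (R.filter fun g => g = i ∨ g = j) ⊆ {i, j} := by
      intro g hg
      simp only [mem_filter] at hg
      simpa using hg.2
    exact_mod_cast (card_le_card this).trans card_le_two
  · rw [sum_congr rfl fun g _ => h1 g, sum_add_distrib, ← sum_mul]
    congr 2
    rw [sum_ite, sum_const_zero, add_zero, sum_const, nsmul_eq_mul, mul_one]
    push_cast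
    rfl
  · intro hi hj
    have : (R.filter fun g => g = i ∨ g = j) = ∅ := by
      rw [filter_eq_empty_iff]
      intro g hg h
      rcases h with h | h
      · exact hi (h ▸ hg)
      · exact hj (h ▸ hg)
    rw [this]
    simp

/-- **The thinning lemma.** -/
theorem thin (v : ι → V) {d : ℝ} (hd : 0 < d) (hv : ∀ i, ‖v i‖ = 1)
    (ht : ∀ u w, ∑ g, ⟪u, v g⟫_ℂ * ⟪v g, w⟫_ℂ = ((Fintype.card ι / d : ℝ) : ℂ) * ⟪u, w⟫_ℂ)
    {M : ℝ} (hM0 : 0 < M)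
    (hM : ∀ i j, i ≠ j → ‖⟪v i, v j⟫_ℂ‖ ^ 2 ≤ M) (m : ℕ) (hN : (Fintype.card ι : ℝ) = d ^ 2 + m)
    (L : ℝ) (hL : Real.log (2 * (2 * (Fintype.card ι : ℝ) ^ 2 + 1)) ≤ L) :
    ∃ S : Finset ι, S.card + m = Fintype.card ι ∧
      (∀ i ∈ S, ∀ j ∈ S, ‖∑ g ∈ S, ⟪v i, v g⟫_ℂ * ⟪v g, v j⟫_ℂ - (d : ℂ) * ⟪v i, v j⟫_ℂ‖ ≤
        8 * M * √(m * L) + 2 * m / Fintype.card ι) ∧
      ∀ u w, ‖∑ g ∈ S, ⟪u, v g⟫_ℂ * ⟪v g, w⟫_ℂ - (d : ℂ) * ⟪u, w⟫_ℂ‖ ≤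
        ((8 * M * √(m * L) + 2 * √M) * d + 2 * d / Fintype.card ι) * ‖u‖ * ‖w‖ := by
  set N : ℝ := (Fintype.card ι : ℝ) with hNdef
  have hN0 : 0 < N := by rw [hN]; positivity
  have hmN : m ≤ Fintype.card ι := by
    have : (m : ℝ) ≤ N := by rw [hN]; nlinarith [sq_nonneg d]
    rw [hNdef] at this
    exact_mod_cast this
  obtain ⟨R, hRc, hR⟩ := thin_select v hM0 hM m hmN L hL
  set err : ℝ := 8 * M * √(m * L) with herr
  have herr0 : 0 ≤ err := by positivity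
  have hmNR : (m : ℝ) ≤ N := by rw [hNdef]; exact_mod_cast hmN
  -- entries
  have key : ∀ i j, ∃ a : ℝ, |a| ≤ 2 ∧ (i ∉ R → j ∉ R → |a| ≤ 2 * m / N) ∧
      ‖∑ g ∈ R, ⟪v i, v g⟫_ℂ * ⟪v g, v j⟫_ℂ - ((m / d : ℝ) : ℂ) * ⟪v i, v j⟫_ℂ -
        (a : ℂ) * ⟪v i, v j⟫_ℂ‖ ≤ err := by
    intro i j
    obtain ⟨c, hc0, hc2, hc, -⟩ := sum_pair hv (univ : Finset ι) i j
    obtain ⟨c', hc'0, hc'2, hc', hc''⟩ := sum_pair hv R i j
    refine ⟨c' - c * (m / N), ?_, ?_, ?_⟩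
    · have h1 : 0 ≤ (m : ℝ) / N := by positivity
      have h2 : (m : ℝ) / N ≤ 1 := (div_le_one hN0).mpr hmNR
      rw [abs_le]
      constructor <;> nlinarith
    · intro hi hj
      rw [hc'' hi hj, zero_sub, abs_neg, abs_mul, abs_of_nonneg hc0,
        abs_of_nonneg (by positivity : 0 ≤ (m : ℝ) / N), mul_div_assoc]
      gcongr
    · have h1 := hR i j
      rw [ht] at hc
      have h2 : ∑ g ∈ R, ⟪v i, v g⟫_ℂ * ⟪v g, v j⟫_ℂ - ((m / d : ℝ) : ℂ) * ⟪v i, v j⟫_ℂ -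
        ((c' - c * (m / N) : ℝ) : ℂ) * ⟪v i, v j⟫_ℂ =
        ∑ g ∈ R, hh v i j g - ((m / N : ℝ) : ℂ) * ∑ g, hh v i j g := by
        have h3 : ∑ g, hh v i j g = ((N / d : ℝ) : ℂ) * ⟪v i, v j⟫_ℂ - c * ⟪v i, v j⟫_ℂ := by
          rw [hc]; ring
        rw [hc', h3]
        have hNC : (N : ℂ) ≠ 0 := by exact_mod_cast hN0.ne'
        have hdC : (d : ℂ) ≠ 0 := by exact_mod_cast hd.ne'
        push_cast
        field_simp
        ring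
      rw [h2]
      exact h1
  -- passing to the complement
  have hcomp : ∀ u w, ∑ g ∈ Rᶜ, ⟪u, v g⟫_ℂ * ⟪v g, w⟫_ℂ - (d : ℂ) * ⟪u, w⟫_ℂ =
      -(∑ g ∈ R, ⟪u, v g⟫_ℂ * ⟪v g, w⟫_ℂ - ((m / d : ℝ) : ℂ) * ⟪u, w⟫_ℂ) := by
    intro u w
    have h1 : ∑ g ∈ R, ⟪u, v g⟫_ℂ * ⟪v g, w⟫_ℂ + ∑ g ∈ Rᶜ, ⟪u, v g⟫_ℂ * ⟪v g, w⟫_ℂ =
        ∑ g, ⟪u, v g⟫_ℂ * ⟪v g, w⟫_ℂ := sum_add_sum_compl _ _
    rw [ht] at h1
    have h2 : ((N / d : ℝ) : ℂ) = (d : ℂ) + ((m / d : ℝ) : ℂ) := by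
      have : N / d = d + m / d := by rw [hN]; field_simp
      rw [this, Complex.ofReal_add]
    rw [h2] at h1
    linear_combination h1
  refine ⟨Rᶜ, ?_, ?_, ?_⟩
  · rw [card_compl, hRc]
    omega
  · intro i hi j hj
    rw [mem_compl] at hi hj
    obtain ⟨a, -, ha2, ha3⟩ := key i j
    have ha2 := ha2 hi hj
    rw [hcomp, norm_neg]
    have h1 : ∑ g ∈ R, ⟪v i, v g⟫_ℂ * ⟪v g, v j⟫_ℂ - ((m / d : ℝ) : ℂ) * ⟪v i, v j⟫_ℂ =
      (∑ g ∈ R, ⟪v i, v g⟫_ℂ * ⟪v g, v j⟫_ℂ - ((m / d : ℝ) : ℂ) * ⟪v i, v j⟫_ℂ -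
        (a : ℂ) * ⟪v i, v j⟫_ℂ) + (a : ℂ) * ⟪v i, v j⟫_ℂ := by ring
    rw [h1]
    refine (norm_add_le _ _).trans (add_le_add ha3 ?_)
    rw [norm_mul, Complex.norm_real, Real.norm_eq_abs]
    have h2 : ‖⟪v i, v j⟫_ℂ‖ ≤ 1 := by
      have := norm_inner_le_norm (𝕜 := ℂ) (v i) (v j)
      rwa [hv, hv, mul_one] at this
    calc |a| * ‖⟪v i, v j⟫_ℂ‖ ≤ |a| * 1 := by gcongr
      _ ≤ 2 * m / N := by rw [mul_one]; exact ha2
  · intro u w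
    rw [hcomp, norm_neg]
    set E : ι → ι → ℂ := fun i j =>
      ∑ g ∈ R, ⟪v i, v g⟫_ℂ * ⟪v g, v j⟫_ℂ - ((m / d : ℝ) : ℂ) * ⟪v i, v j⟫_ℂ with hE
    have hE1 : ∀ i j, ‖E i j‖ ≤ (err + 2 * √M) + (if i = j then 2 else 0) := by
      intro i j
      obtain ⟨a, ha1, -, ha3⟩ := key i j
      have h1 : E i j = (∑ g ∈ R, ⟪v i, v g⟫_ℂ * ⟪v g, v j⟫_ℂ - ((m / d : ℝ) : ℂ) * ⟪v i, v j⟫_ℂ -
        (a : ℂ) * ⟪v i, v j⟫_ℂ) + (a : ℂ) * ⟪v i, v j⟫_ℂ := by rw [hE]; ring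
      rw [h1]
      have h2 : ‖(a : ℂ) * ⟪v i, v j⟫_ℂ‖ ≤ 2 * √M + (if i = j then 2 else 0) := by
        rw [norm_mul, Complex.norm_real, Real.norm_eq_abs]
        by_cases h : i = j
        · subst h
          rw [if_pos rfl]
          have h2 : ‖⟪v i, v i⟫_ℂ‖ ≤ 1 := by
            have := norm_inner_le_norm (𝕜 := ℂ) (v i) (v i)
            rwa [hv, mul_one] at this
          have h3 : 0 ≤ √M := Real.sqrt_nonneg _
          calc |a| * ‖⟪v i, v i⟫_ℂ‖ ≤ 2 * 1 := by gcongr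
            _ ≤ 2 * √M + 2 := by linarith
        · rw [if_neg h, add_zero]
          have h2 : ‖⟪v i, v j⟫_ℂ‖ ≤ √M := Real.le_sqrt_of_sq_le (hM i j h)
          gcongr
      refine (norm_add_le _ _).trans ?_
      linarith
    -- expansion
    have hNC : (N : ℂ) ≠ 0 := by exact_mod_cast hN0.ne'
    have hdC : (d : ℂ) ≠ 0 := by exact_mod_cast hd.ne'
    have hexp : ∑ g ∈ R, ⟪u, v g⟫_ℂ * ⟪v g, w⟫_ℂ - ((m / d : ℝ) : ℂ) * ⟪u, w⟫_ℂ =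
        ((d / N : ℝ) : ℂ) ^ 2 * ∑ i, ∑ j, ⟪u, v i⟫_ℂ * E i j * ⟪v j, w⟫_ℂ := by
      have hu : ∀ z, ⟪u, z⟫_ℂ = ((d / N : ℝ) : ℂ) * ∑ i, ⟪u, v i⟫_ℂ * ⟪v i, z⟫_ℂ := by
        intro z
        rw [ht]
        push_cast
        field_simp
      have hw : ∀ z, ⟪z, w⟫_ℂ = ((d / N : ℝ) : ℂ) * ∑ j, ⟪z, v j⟫_ℂ * ⟪v j, w⟫_ℂ := by
        intro z
        rw [ht]
        push_cast
        field_simp
      have h1 : ∑ i, ∑ j, ⟪u, v i⟫_ℂ * E i j * ⟪v j, w⟫_ℂ =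
          ∑ g ∈ R, (∑ i, ⟪u, v i⟫_ℂ * ⟪v i, v g⟫_ℂ) * (∑ j, ⟪v g, v j⟫_ℂ * ⟪v j, w⟫_ℂ) -
          ((m / d : ℝ) : ℂ) * ∑ i, ⟪u, v i⟫_ℂ * ∑ j, ⟪v i, v j⟫_ℂ * ⟪v j, w⟫_ℂ := by
        have e1 : ∀ i j, ⟪u, v i⟫_ℂ * E i j * ⟪v j, w⟫_ℂ =
            ∑ g ∈ R, (⟪u, v i⟫_ℂ * ⟪v i, v g⟫_ℂ) * (⟪v g, v j⟫_ℂ * ⟪v j, w⟫_ℂ) -
            ((m / d : ℝ) : ℂ) * (⟪u, v i⟫_ℂ * (⟪v i, v j⟫_ℂ * ⟪v j, w⟫_ℂ)) := by
          intro i j
          simp only [hE]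
          rw [mul_sub, sub_mul, mul_sum, sum_mul]
          congr 1
          · exact sum_congr rfl fun g _ => by ring
          · ring
        simp only [e1, sum_sub_distrib]
        congr 1
        · rw [sum_congr rfl fun i _ => sum_comm, sum_comm]
          refine sum_congr rfl fun g _ => ?_
          rw [sum_mul_sum]
        · simp only [mul_sum]
      rw [h1]
      have h2 : ∀ g, ((d / N : ℝ) : ℂ) ^ 2 * ((∑ i, ⟪u, v i⟫_ℂ * ⟪v i, v g⟫_ℂ) *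
          (∑ j, ⟪v g, v j⟫_ℂ * ⟪v j, w⟫_ℂ)) = ⟪u, v g⟫_ℂ * ⟪v g, w⟫_ℂ := by
        intro g
        rw [hu (v g), hw (v g)]
        ring
      have h3 : ((d / N : ℝ) : ℂ) ^ 2 * ∑ i, ⟪u, v i⟫_ℂ * ∑ j, ⟪v i, v j⟫_ℂ * ⟪v j, w⟫_ℂ = ⟪u, w⟫_ℂ := by
        rw [hu w]
        have : ∀ i, ⟪v i, w⟫_ℂ = ((d / N : ℝ) : ℂ) * ∑ j, ⟪v i, v j⟫_ℂ * ⟪v j, w⟫_ℂ := fun i => hw (v i)
        conv_rhs => rw [sum_congr rfl fun i _ => by rw [this i]]
        simp only [mul_sum]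
        refine sum_congr rfl fun i _ => sum_congr rfl fun j _ => ?_
        ring
      rw [mul_sub, mul_sum, sum_congr rfl fun g _ => h2 g]
      congr 1
      rw [← h3]
      ring
    rw [hexp, norm_mul, norm_pow, Complex.norm_real, Real.norm_eq_abs,
      abs_of_pos (by positivity : 0 < d / N)]
    -- Cauchy–Schwarz
    have hsq : ∀ z, ∑ i, ‖⟪v i, z⟫_ℂ‖ ^ 2 = N / d * ‖z‖ ^ 2 := by
      intro z
      have := ht z z
      rw [sum_self, inner_self_ofReal] at this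
      exact_mod_cast this
    have hsum : ∀ z, ∑ i, ‖⟪v i, z⟫_ℂ‖ ≤ √(N * (N / d)) * ‖z‖ := by
      intro z
      have h1 : (∑ i, ‖⟪v i, z⟫_ℂ‖) ^ 2 ≤ N * ∑ i, ‖⟪v i, z⟫_ℂ‖ ^ 2 := by
        have := sq_sum_le_card_mul_sum_sq (s := (univ : Finset ι)) (f := fun i => ‖⟪v i, z⟫_ℂ‖)
        rwa [card_univ] at this
      rw [hsq] at h1
      have h2 : (∑ i, ‖⟪v i, z⟫_ℂ‖) ^ 2 ≤ (√(N * (N / d)) * ‖z‖) ^ 2 := by
        rw [mul_pow, Real.sq_sqrt (by positivity)]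
        linarith
      exact (pow_le_pow_iff_left₀ (by positivity) (by positivity) two_ne_zero).mp h2
    have hdiag : ∑ i, ‖⟪v i, u⟫_ℂ‖ * ‖⟪v i, w⟫_ℂ‖ ≤ N / d * ‖u‖ * ‖w‖ := by
      have h2 : (∑ k, ‖⟪v k, u⟫_ℂ‖ * ‖⟪v k, w⟫_ℂ‖) ^ 2 ≤
        (∑ k, ‖⟪v k, u⟫_ℂ‖ ^ 2) * ∑ k, ‖⟪v k, w⟫_ℂ‖ ^ 2 := sum_mul_sq_le_sq_mul_sq _ _ _
      rw [hsq, hsq] at h2
      have h3 : (∑ k, ‖⟪v k, u⟫_ℂ‖ * ‖⟪v k, w⟫_ℂ‖) ^ 2 ≤ (N / d * ‖u‖ * ‖w‖) ^ 2 := by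
        refine h2.trans (le_of_eq ?_)
        ring
      exact (pow_le_pow_iff_left₀ (by positivity) (by positivity) two_ne_zero).mp h3
    have hb : ‖∑ i, ∑ j, ⟪u, v i⟫_ℂ * E i j * ⟪v j, w⟫_ℂ‖ ≤
        (err + 2 * √M) * ((√(N * (N / d)) * ‖u‖) * (√(N * (N / d)) * ‖w‖)) +
          2 * (N / d * ‖u‖ * ‖w‖) := by
      calc ‖∑ i, ∑ j, ⟪u, v i⟫_ℂ * E i j * ⟪v j, w⟫_ℂ‖ ≤
          ∑ i, ∑ j, ‖⟪v i, u⟫_ℂ‖ * ((err + 2 * √M) + (if i = j then 2 else 0)) * ‖⟪v j, w⟫_ℂ‖ := by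
            refine (norm_sum_le _ _).trans (sum_le_sum fun i _ => ?_)
            refine (norm_sum_le _ _).trans (sum_le_sum fun j _ => ?_)
            rw [norm_mul, norm_mul, norm_inner_symm u (v i)]
            gcongr
            exact hE1 i j
        _ = (err + 2 * √M) * ((∑ i, ‖⟪v i, u⟫_ℂ‖) * (∑ j, ‖⟪v j, w⟫_ℂ‖)) +
            2 * ∑ i, ‖⟪v i, u⟫_ℂ‖ * ‖⟪v i, w⟫_ℂ‖ := by
            have e1 : ∀ i j, ‖⟪v i, u⟫_ℂ‖ * ((err + 2 * √M) + (if i = j then 2 else 0)) *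
                ‖⟪v j, w⟫_ℂ‖ = (err + 2 * √M) * (‖⟪v i, u⟫_ℂ‖ * ‖⟪v j, w⟫_ℂ‖) +
                (if i = j then 2 * (‖⟪v i, u⟫_ℂ‖ * ‖⟪v j, w⟫_ℂ‖) else 0) := by
              intro i j
              split_ifs <;> ring
            simp only [e1, sum_add_distrib]
            congr 1
            · rw [sum_mul_sum, mul_sum]
              refine sum_congr rfl fun i _ => ?_
              rw [mul_sum]
            · rw [mul_sum]
              refine sum_congr rfl fun i _ => ?_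
              rw [sum_ite_eq univ i]
              simp
        _ ≤ _ := by
            gcongr
            · exact hsum u
            · exact hsum w
    calc (d / N) ^ 2 * ‖∑ i, ∑ j, ⟪u, v i⟫_ℂ * E i j * ⟪v j, w⟫_ℂ‖ ≤ (d / N) ^ 2 *
        ((err + 2 * √M) * ((√(N * (N / d)) * ‖u‖) * (√(N * (N / d)) * ‖w‖)) +
          2 * (N / d * ‖u‖ * ‖w‖)) := by gcongr
      _ = (d / N) ^ 2 * ((err + 2 * √M) * ((√(N * (N / d)) * √(N * (N / d))) * (‖u‖ * ‖w‖)) +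
          2 * (N / d * ‖u‖ * ‖w‖)) := by ring
      _ = ((err + 2 * √M) * d + 2 * d / N) * ‖u‖ * ‖w‖ := by
          rw [Real.mul_self_sqrt (by positivity)]
          field_simp

end Pool.Agent.H52.SIC
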